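import Pool.Agent.U73.SZ.Disc
import Pool.Agent.N906.SZ.All
import Pool.Agent.N906.SZ.Lim

set_option autoImplicit false

/-!
# The tail of `|D| / N₆` and random sequences of curves: assembly (helper73)
-/

namespace Pool.Agent.U73.SZ

open MeasureTheory Set Filter Topology
open Pool.Agent.N906.SZ

theorem scnt : S_CNT := cnt Pool.Agent.N966.SZ.dens Pool.Agent.N487.SZ.reg

/-- every curve has a minimal model -/
theorem exists_min (a b : ℤ) (hD : Dd a b ≠ 0) : ∃ (u : ℕ) (a' b' : ℤ), 1 ≤ u ∧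
    a = (u : ℤ) ^ 4 * a' ∧ b = (u : ℤ) ^ 6 * b' ∧ Mn a' b' := by
  induction hn : (Dd a b).natAbs using Nat.strong_induction_on generalizing a b with
  | _ n ih =>
    by_cases hM : Mn a b
    · exact ⟨1, a, b, le_rfl, by simp, by simp, hM⟩
    · unfold Mn at hM
      push Not at hM
      obtain ⟨p, hp, ⟨a₁, ha⟩, ⟨b₁, hb⟩⟩ := hM hD
      have e : Dd a b = (p : ℤ) ^ 12 * Dd a₁ b₁ := by
        rw [ha, hb]; unfold Dd; ring
      have hD1 : Dd a₁ b₁ ≠ 0 := by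
        intro h0; rw [h0, mul_zero] at e; exact hD e
      have hlt : (Dd a₁ b₁).natAbs < n := by
        rw [← hn, e, Int.natAbs_mul, Int.natAbs_pow, Int.natAbs_natCast]
        have h1 : 0 < (Dd a₁ b₁).natAbs := Int.natAbs_pos.2 hD1
        have h2 : 1 < p ^ 12 := Nat.one_lt_pow (by norm_num) hp.one_lt
        nlinarith
      obtain ⟨u, a', b', h1, h2, h3, h4⟩ := ih _ hlt a₁ b₁ hD1 rfl
      refine ⟨p * u, a', b', ?_, ?_, ?_, h4⟩
      · exact Nat.mul_pos hp.pos h1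
      · rw [ha, h2]; push_cast; ring
      · rw [hb, h3]; push_cast; ring

theorem Large_fin (f : ℤ → ℤ → ℝ) (K X : ℝ) : {q : ℤ × ℤ | Mn q.1 q.2 ∧ |(q.1 : ℝ)| ≤ X ^ 2 ∧
    |(q.2 : ℝ)| ≤ X ^ 3 ∧ K * f q.1 q.2 ≤ |((Dd q.1 q.2 : ℤ) : ℝ)|}.Finite :=
  (box_fin X).subset fun _ hq => ⟨hq.2.1, hq.2.2.1⟩

theorem tailA (f : ℤ → ℤ → ℝ) (hf : ∀ a b, Mn a b → (Nc a b : ℝ) ≤ f a b) (ε : ℝ) (hε : 0 < ε) :
    ∃ C : ℝ, ∀ X K : ℝ, 1 ≤ X → 1 ≤ K →
    (({q : ℤ × ℤ | Mn q.1 q.2 ∧ |(q.1 : ℝ)| ≤ X ^ 2 ∧ |(q.2 : ℝ)| ≤ X ^ 3 ∧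
      K * f q.1 q.2 ≤ |((Dd q.1 q.2 : ℤ) : ℝ)|}.ncard : ℕ) : ℝ) ≤
      C * (X ^ 5 * K ^ (-1 + ε) + X ^ (4 + ε)) := by
  obtain ⟨C, hC, h⟩ := tail_up Pool.Agent.N157.SZ.gain up_all Pool.Agent.N72.SZ.genu scnt (min ε 1)
    (lt_min hε one_pos) (min_le_right _ _)
  refine ⟨C, fun X K hX hK => ?_⟩
  have hXp : 0 < X := by linarith
  have hfin := Large_fin f K X
  rw [Set.ncard_eq_toFinset_card _ hfin]
  refine (h X K hfin.toFinset hX hK ?_).trans ?_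
  · intro x hx
    rw [Set.Finite.mem_toFinset] at hx
    obtain ⟨h1, h2, h3, h4⟩ := hx
    refine ⟨h1, h2, h3, le_trans ?_ h4⟩
    have := hf x.1 x.2 h1
    gcongr
  · have e1 : X ^ 5 * X ^ (-1 + min ε 1) ≤ X ^ (4 + ε) := by
      rw [← Real.rpow_natCast, ← Real.rpow_add hXp]
      apply Real.rpow_le_rpow_of_exponent_le hX
      have := min_le_left ε 1
      push_cast; linarith
    have e2 : K ^ (-1 + min ε 1) ≤ K ^ (-1 + ε) :=
      Real.rpow_le_rpow_of_exponent_le hK (by have := min_le_left ε 1; linarith)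
    calc C * X ^ 5 * (K ^ (-1 + min ε 1) + X ^ (-1 + min ε 1)) =
        C * (X ^ 5 * K ^ (-1 + min ε 1) + X ^ 5 * X ^ (-1 + min ε 1)) := by ring
      _ ≤ _ := by gcongr

theorem tailB (f : ℤ → ℤ → ℝ) (A : ℝ) (hA : 1 ≤ A) (hf : ∀ a b, Mn a b → f a b ≤ A * Nc a b) :
    ∃ c : ℝ, 0 < c ∧ ∀ X K : ℝ, 1 ≤ K → K ≤ c * X → c * X ^ 5 / K ≤
    (({q : ℤ × ℤ | Mn q.1 q.2 ∧ |(q.1 : ℝ)| ≤ X ^ 2 ∧ |(q.2 : ℝ)| ≤ X ^ 3 ∧
      K * f q.1 q.2 ≤ |((Dd q.1 q.2 : ℤ) : ℝ)|}.ncard : ℕ) : ℝ) := by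
  obtain ⟨c, X₀, hc, hX₀, h⟩ := tail_lo Pool.Agent.N157.SZ.gain Pool.Agent.N56.SZ.lowq
  obtain ⟨d, hd⟩ : ∃ d : ℝ, d = min (min (1 / A) (1 / X₀)) (c / A) := ⟨_, rfl⟩
  have hd0 : 0 < d := by rw [hd]; exact lt_min (lt_min (by positivity) (by positivity)) (by positivity)
  have hd1 : d ≤ 1 / A := by rw [hd]; exact (min_le_left _ _).trans (min_le_left _ _)
  have hd2 : d ≤ 1 / X₀ := by rw [hd]; exact (min_le_left _ _).trans (min_le_right _ _)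
  have hd3 : d ≤ c / A := by rw [hd]; exact min_le_right _ _
  refine ⟨d, hd0, fun X K hK hKX => ?_⟩
  have hXp : 0 < X := by
    by_contra hcon
    push Not at hcon
    nlinarith
  have hX0X : X₀ ≤ X := by
    have h1 : 1 ≤ (1 / X₀) * X := by
      calc (1 : ℝ) ≤ K := hK
        _ ≤ d * X := hKX
        _ ≤ _ := by gcongr
    rw [one_div, inv_mul_eq_div, one_le_div (by linarith)] at h1
    exact h1
  have hKA : K * A ≤ X := by
    have h1 : K ≤ (1 / A) * X := hKX.trans (by gcongr)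
    rw [one_div, inv_mul_eq_div, le_div_iff₀ (by linarith)] at h1
    exact h1
  obtain ⟨F, hF1, hF2⟩ := h X (K * A) hX0X (by nlinarith) hKA
  have hfin := Large_fin f K X
  have hsub : (↑F : Set (ℤ × ℤ)) ⊆ {q : ℤ × ℤ | Mn q.1 q.2 ∧ |(q.1 : ℝ)| ≤ X ^ 2 ∧ |(q.2 : ℝ)| ≤ X ^ 3 ∧
      K * f q.1 q.2 ≤ |((Dd q.1 q.2 : ℤ) : ℝ)|} := by
    intro x hx
    obtain ⟨h1, h2, h3, h4⟩ := hF1 x (Finset.mem_coe.1 hx)
    refine ⟨h1, h2, h3, le_trans ?_ h4⟩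
    have := hf x.1 x.2 h1
    calc K * f x.1 x.2 ≤ K * (A * Nc x.1 x.2) := by gcongr
      _ = _ := by ring
  have h5 := Set.ncard_le_ncard hsub hfin
  rw [Set.ncard_coe_finset] at h5
  have h6 : (F.card : ℝ) ≤ (({q : ℤ × ℤ | Mn q.1 q.2 ∧ |(q.1 : ℝ)| ≤ X ^ 2 ∧ |(q.2 : ℝ)| ≤ X ^ 3 ∧
      K * f q.1 q.2 ≤ |((Dd q.1 q.2 : ℤ) : ℝ)|}.ncard : ℕ) : ℝ) := by exact_mod_cast h5
  refine le_trans ?_ (hF2.trans h6)
  calc d * X ^ 5 / K ≤ (c / A) * X ^ 5 / K := by gcongr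
    _ = c * X ^ 5 / (K * A) := by field_simp

/-- from the divisibility to the lower bound for the minimal discriminant -/
theorem div_low {g : ℕ} (hg : 1 ≤ g) {a b : ℤ} (h5 : ¬ (5 : ℤ) ∣ a) (hD : (5 ^ g : ℤ) ∣ Dd a b)
    {u : ℕ} {a' b' : ℤ} (ha : a = (u : ℤ) ^ 4 * a') (hb : b = (u : ℤ) ^ 6 * b') (hM : Mn a' b') :
    (5 : ℝ) ^ (g - 1) * Nc a' b' ≤ |((Dd a' b' : ℤ) : ℝ)| := by
  obtain ⟨n, n1, n2, n3⟩ := Pool.Agent.N157.SZ.gain a' b' hM.1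
  have hp5 : Prime (5 : ℤ) := by norm_num
  have hu5 : ¬ (5 : ℤ) ∣ (u : ℤ) := by
    intro h
    apply h5
    rw [ha]
    exact Dvd.dvd.mul_right (h.trans (dvd_pow_self _ (by norm_num))) _
  have ha5 : ¬ (5 : ℤ) ∣ a' := fun h => h5 (by rw [ha]; exact Dvd.dvd.mul_left h _)
  have hD' : (5 ^ g : ℤ) ∣ Dd a' b' := by
    have e : Dd a b = (u : ℤ) ^ 12 * Dd a' b' := by rw [ha, hb]; unfold Dd; ring
    rw [e] at hD
    apply IsCoprime.dvd_of_dvd_mul_left _ hD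
    apply IsCoprime.pow
    exact (Prime.coprime_iff_not_dvd hp5).2 hu5
  have hC : Cn (5 ^ (g - 1)) a' b' := by
    intro p hp
    have hp' := Nat.prime_of_mem_primeFactors hp
    have hpd : p ∣ 5 ^ (g - 1) := Nat.dvd_of_mem_primeFactors hp
    have hp55 : p = 5 := (Nat.prime_dvd_prime_iff_eq hp' (by norm_num)).1 (hp'.dvd_of_dvd_pow hpd)
    subst hp55
    have hfe : fe 5 a' = 1 := by
      unfold fe
      rw [if_neg (by norm_num), if_neg (by exact_mod_cast ha5)]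
    rw [hfe, Nat.Prime.factorization_pow (by norm_num), Finsupp.single_eq_same]
    have : g - 1 + 1 = g := by omega
    rw [this]
    exact_mod_cast hD'
  have hdvd : 5 ^ (g - 1) ∣ n := Pool.Agent.N232.SZ.dvd_of_Cn hM.1 (by positivity) (by omega) hC n3
  have hle : ((5 ^ (g - 1) : ℕ) : ℝ) ≤ n := by exact_mod_cast Nat.le_of_dvd (by omega) hdvd
  push_cast at hle
  have hDn : |((Dd a' b' : ℤ) : ℝ)| = n * (Nc a' b' : ℝ) := by
    rw [← Int.cast_abs, Int.abs_eq_natAbs, n3]; push_cast; ring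
  rw [hDn]
  gcongr

theorem lowN (A : ℝ) (hA : 1 ≤ A) (X s r : ℕ → ℝ) (M lam : ℝ) (hM : 0 ≤ M) (hX : ∀ n, 1 ≤ X n)
    (hl : 1 < lam) (hXl : ∀ n, lam * X n ≤ X (n + 1))
    (hs : ∀ n, |s n| ≤ M * X n ^ 2) (hr : ∀ n, |r n| ≤ M * X n ^ 3) :
    ∀ᵐ p : ℝ × ℝ, ∀ N : ℕ, ∃ n, N ≤ n ∧ ∃ (u : ℕ) (a' b' : ℤ), 1 ≤ u ∧
      ⌊s n + p.1 * X n ^ 2⌋ = (u : ℤ) ^ 4 * a' ∧ ⌊r n + p.2 * X n ^ 3⌋ = (u : ℤ) ^ 6 * b' ∧ Mn a' b' ∧
      (n : ℝ) / Real.log n ^ 4 * (A * Nc a' b') ≤ |((Dd a' b' : ℤ) : ℝ)| := by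
  have hXp : ∀ n, 0 < X n := fun n => by have := hX n; linarith
  have hpow : ∀ᶠ n : ℕ in atTop, (n : ℝ) ^ (2 : ℝ) ≤ X n := by
    have h1 : Tendsto (fun n : ℕ => (n : ℝ) ^ 2 / lam ^ n) atTop (𝓝 0) :=
      tendsto_pow_const_div_const_pow_of_one_lt 2 hl
    filter_upwards [h1.eventually_le_const (by norm_num : (0 : ℝ) < 1)] with n hn
    rw [div_le_one (by positivity)] at hn
    have h2 := lac hl hXl 0 n
    rw [zero_add] at h2
    have h3 := hX 0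
    have h4 : (0 : ℝ) < lam ^ n := by positivity
    rw [show (2 : ℝ) = ((2 : ℕ) : ℝ) by norm_num, Real.rpow_natCast]
    calc (n : ℝ) ^ 2 ≤ lam ^ n := hn
      _ = lam ^ n * 1 := (mul_one _).symm
      _ ≤ lam ^ n * X 0 := by gcongr
      _ ≤ X n := h2
  have hup := up_plane Pool.Agent.N157.SZ.gain up_all Pool.Agent.N72.SZ.genu scnt X s r M 2 hM hX
    (by norm_num) hpow hs hr
  have hlow := low_plane s (fun n => X n ^ 2) r (fun n => X n ^ 3) lam hl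
    (fun n => by have := hXp n; positivity) (fun n => by have := hXp n; positivity)
    (fun n => by
      have h1 := hXl n
      have h2 := hXp n
      calc lam * X n ^ 2 ≤ lam ^ 2 * X n ^ 2 := by
            have : lam ≤ lam ^ 2 := by nlinarith
            gcongr
        _ = (lam * X n) ^ 2 := by ring
        _ ≤ X (n + 1) ^ 2 := by gcongr)
    (fun n => by
      have h1 := hXl n
      have h2 := hXp n
      calc lam * X n ^ 3 ≤ lam ^ 3 * X n ^ 3 := by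
            have : lam ≤ lam ^ 3 := by nlinarith [sq_nonneg lam, mul_pos (by linarith : (0 : ℝ) < lam) (by linarith : (0 : ℝ) < lam)]
            gcongr
        _ = (lam * X n) ^ 3 := by ring
        _ ≤ X (n + 1) ^ 3 := by gcongr)
  filter_upwards [hup, hlow] with p hp1 hp2 N
  obtain ⟨N₁, hN₁⟩ := eventually_atTop.1 (hp1 1 one_pos)
  obtain ⟨J₁, hJ₁⟩ : ∃ J₁ : ℕ, ∀ j : ℕ, J₁ ≤ j → 5 * (j : ℝ) ^ 3 ≤ 2 ^ j := by
    have h1 : Tendsto (fun n : ℕ => (n : ℝ) ^ 3 / 2 ^ n) atTop (𝓝 0) :=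
      tendsto_pow_const_div_const_pow_of_one_lt 3 (by norm_num)
    obtain ⟨J, hJ⟩ := eventually_atTop.1 (h1.eventually_le_const (by norm_num : (0 : ℝ) < 1 / 5))
    refine ⟨J, fun j hj => ?_⟩
    have := hJ j hj
    rw [div_le_iff₀ (by positivity)] at this
    linarith
  obtain ⟨J₂, hJ₂⟩ := exists_nat_ge (1000 * A)
  obtain ⟨j, hj, n, n1, n2, x, hx, hx1, hx2⟩ := hp2 (max (max N N₁) (max J₁ (max J₂ 2)))
  have hjN : N ≤ j := ((le_max_left _ _).trans (le_max_left _ _)).trans hj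
  have hjN1 : N₁ ≤ j := ((le_max_right _ _).trans (le_max_left _ _)).trans hj
  have hjJ1 : J₁ ≤ j := ((le_max_left _ _).trans (le_max_right _ _)).trans hj
  have hjJ2 : J₂ ≤ j := (((le_max_left _ _).trans (le_max_right _ _)).trans (le_max_right _ _)).trans hj
  have hj2 : 2 ≤ j := (((le_max_right _ _).trans (le_max_right _ _)).trans (le_max_right _ _)).trans hj
  have hjn : j ≤ n := (Nat.lt_two_pow_self).le.trans n1
  have hD := (hN₁ n (hjN1.trans hjn)).1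
  obtain ⟨u, a', b', u1, ha, hb, hMn⟩ := exists_min _ _ hD
  refine ⟨n, hjN.trans hjn, u, a', b', u1, ha, hb, hMn, ?_⟩
  have hjR : (2 : ℝ) ≤ j := by exact_mod_cast hj2
  have hj0 : (0 : ℝ) < j := by linarith
  have h5j : 5 ≤ 2 ^ j / j ^ 3 := by
    rw [Nat.le_div_iff_mul_le (by positivity)]
    exact_mod_cast hJ₁ j hjJ1
  have hg1 : 1 ≤ gg j := by
    unfold gg
    exact Nat.log_pos (by norm_num) h5j
  have hprop := RR_prop hg1 hx (a := ⌊s n + p.1 * X n ^ 2⌋) (b := ⌊r n + p.2 * X n ^ 3⌋) hx1 hx2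
  have hlowD := div_low hg1 hprop.1 hprop.2 ha hb hMn
  refine le_trans ?_ hlowD
  -- the size of `5 ^ (g - 1)`
  have hsize : (2 : ℝ) ^ j / (25 * j ^ 3) ≤ 5 ^ (gg j - 1) := by
    have h1 := lt_gg j
    have h2 : 2 ^ j < 5 ^ (gg j + 1) * j ^ 3 := (Nat.div_lt_iff_lt_mul (by positivity)).1 h1
    have h3 : (2 : ℝ) ^ j ≤ 5 ^ (gg j + 1) * j ^ 3 := by exact_mod_cast h2.le
    rw [div_le_iff₀ (by positivity)]
    have e : (5 : ℝ) ^ (gg j + 1) = 5 ^ (gg j - 1) * 25 := by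
      have : gg j + 1 = gg j - 1 + 2 := by omega
      rw [this, pow_add]; norm_num
    rw [e] at h3
    linarith
  have hnpos : (0 : ℝ) < n := by
    have : 0 < n := by omega
    exact_mod_cast this
  have hlog : (j : ℝ) / 2 ≤ Real.log n := by
    have h1 : ((2 : ℝ) ^ j) ≤ n := by exact_mod_cast n1
    have h2 : Real.log ((2 : ℝ) ^ j) ≤ Real.log n := Real.log_le_log (by positivity) h1
    rw [Real.log_pow] at h2
    have := Real.log_two_gt_d9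
    nlinarith
  have hn2 : (n : ℝ) ≤ 2 * 2 ^ j := by
    have : (n : ℝ) ≤ 2 ^ (j + 1) := by exact_mod_cast n2.le
    rw [pow_succ] at this
    linarith
  have hkey : (n : ℝ) / Real.log n ^ 4 * A ≤ 5 ^ (gg j - 1) := by
    refine le_trans ?_ hsize
    have h1 : (n : ℝ) / Real.log n ^ 4 ≤ 2 * 2 ^ j / ((j : ℝ) / 2) ^ 4 := by gcongr
    have h2 : 1000 * A ≤ j := hJ₂.trans (by exact_mod_cast hjJ2)
    calc (n : ℝ) / Real.log n ^ 4 * A ≤ 2 * 2 ^ j / ((j : ℝ) / 2) ^ 4 * (j / 1000) := by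
          gcongr
          linarith
      _ = (2 : ℝ) ^ j / (31.25 * j ^ 3) := by field_simp; norm_num
      _ ≤ 2 ^ j / (25 * j ^ 3) := by gcongr; norm_num
  calc (n : ℝ) / Real.log n ^ 4 * (A * (Nc a' b' : ℝ)) =
      ((n : ℝ) / Real.log n ^ 4 * A) * (Nc a' b' : ℝ) := by ring
    _ ≤ 5 ^ (gg j - 1) * (Nc a' b' : ℝ) := by gcongr

end Pool.Agent.U73.SZ
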