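import Pool.Agent.U73.SZ.Block

set_option autoImplicit false

/-!
# Infinitely many indices with `5 ^ g ∣ 4 a_n ^ 3 - 27 b_n ^ 2` (helper73)
-/

namespace Pool.Agent.U73.SZ

open MeasureTheory Set Filter Topology

/-- the classes `(3 t ^ 2, 2 t ^ 3)` modulo `5 ^ g`, `t` prime to `5` -/
def RR (g : ℕ) : Finset (ℤ × ℤ) :=
  ((Finset.range (5 ^ g)).filter (fun t => (5 ^ g).Coprime t)).image
    (fun t : ℕ => ((3 * (t : ℤ) ^ 2) % (5 ^ g : ℤ), (2 * (t : ℤ) ^ 3) % (5 ^ g : ℤ)))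

theorem RR_mem {g : ℕ} {x : ℤ × ℤ} (hx : x ∈ RR g) :
    0 ≤ x.1 ∧ x.1 < 5 ^ g ∧ 0 ≤ x.2 ∧ x.2 < 5 ^ g := by
  unfold RR at hx
  rw [Finset.mem_image] at hx
  obtain ⟨t, -, rfl⟩ := hx
  have h5 : (0 : ℤ) < 5 ^ g := by positivity
  exact ⟨Int.emod_nonneg _ h5.ne', Int.emod_lt_of_pos _ h5, Int.emod_nonneg _ h5.ne',
    Int.emod_lt_of_pos _ h5⟩

theorem RR_card {g : ℕ} (hg : 1 ≤ g) : (4 / 5 : ℝ) * 5 ^ g ≤ (RR g).card := by
  have hinj : Set.InjOn (fun t : ℕ => ((3 * (t : ℤ) ^ 2) % (5 ^ g : ℤ), (2 * (t : ℤ) ^ 3) % (5 ^ g : ℤ)))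
      ↑((Finset.range (5 ^ g)).filter (fun t => (5 ^ g).Coprime t)) := by
    intro t ht t' ht' h
    rw [Finset.mem_coe, Finset.mem_filter, Finset.mem_range] at ht ht'
    simp only [Prod.mk.injEq] at h
    obtain ⟨h1, h2⟩ := h
    have g1 : (5 ^ g : ℤ) ∣ 3 * (t : ℤ) ^ 2 - 3 * (t' : ℤ) ^ 2 :=
      (Int.ModEq.dvd (Int.ModEq.symm h1))
    have g2 : (5 ^ g : ℤ) ∣ 2 * (t : ℤ) ^ 3 - 2 * (t' : ℤ) ^ 3 :=
      (Int.ModEq.dvd (Int.ModEq.symm h2))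
    have c3 : IsCoprime (5 ^ g : ℤ) 3 := IsCoprime.pow_left (by norm_num)
    have c2 : IsCoprime (5 ^ g : ℤ) 2 := IsCoprime.pow_left (by norm_num)
    have ct : IsCoprime (5 ^ g : ℤ) (t : ℤ) := by
      have := Nat.isCoprime_iff_coprime.2 ht.2
      push_cast at this
      exact this
    have g1' : (5 ^ g : ℤ) ∣ (t : ℤ) ^ 2 - (t' : ℤ) ^ 2 := by
      apply c3.dvd_of_dvd_mul_left
      rw [mul_sub]; exact g1
    have g2' : (5 ^ g : ℤ) ∣ (t : ℤ) ^ 3 - (t' : ℤ) ^ 3 := by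
      apply c2.dvd_of_dvd_mul_left
      rw [mul_sub]; exact g2
    have g3 : (5 ^ g : ℤ) ∣ (t : ℤ) ^ 2 * ((t : ℤ) - t') := by
      have e : (t : ℤ) ^ 2 * ((t : ℤ) - t') = ((t : ℤ) ^ 3 - (t' : ℤ) ^ 3) -
          t' * ((t : ℤ) ^ 2 - (t' : ℤ) ^ 2) := by ring
      rw [e]
      exact dvd_sub g2' (Dvd.dvd.mul_left g1' _)
    have g4 : (5 ^ g : ℤ) ∣ (t : ℤ) - t' := (ct.pow_right).dvd_of_dvd_mul_left g3
    have h5 : (t : ℤ) < 5 ^ g := by exact_mod_cast ht.1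
    have h5' : (t' : ℤ) < 5 ^ g := by exact_mod_cast ht'.1
    have := Int.eq_zero_of_abs_lt_dvd g4 (by
      rw [abs_lt]
      constructor <;> linarith [Int.natCast_nonneg t, Int.natCast_nonneg t'])
    have h6 : (t : ℤ) = t' := by omega
    exact_mod_cast h6
  unfold RR
  rw [Finset.card_image_of_injOn hinj, ← Nat.totient_eq_card_coprime,
    Nat.totient_prime_pow (by norm_num) hg]
  obtain ⟨k, rfl⟩ := Nat.exists_eq_add_of_le' hg
  rw [Nat.add_sub_cancel]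
  push_cast
  rw [pow_succ]
  linarith

theorem RR_prop {g : ℕ} (hg : 1 ≤ g) {x : ℤ × ℤ} (hx : x ∈ RR g) {a b : ℤ} (ha : (5 ^ g : ℤ) ∣ a - x.1)
    (hb : (5 ^ g : ℤ) ∣ b - x.2) : ¬ (5 : ℤ) ∣ a ∧ (5 ^ g : ℤ) ∣ 4 * a ^ 3 - 27 * b ^ 2 := by
  unfold RR at hx
  rw [Finset.mem_image] at hx
  obtain ⟨t, ht, rfl⟩ := hx
  rw [Finset.mem_filter] at ht
  simp only at ha hb
  have ha' : (5 ^ g : ℤ) ∣ a - 3 * (t : ℤ) ^ 2 := by
    have h1 := Int.emod_add_mul_ediv (3 * (t : ℤ) ^ 2) (5 ^ g)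
    have h2 : a - 3 * (t : ℤ) ^ 2 = (a - (3 * (t : ℤ) ^ 2) % (5 ^ g)) -
        5 ^ g * ((3 * (t : ℤ) ^ 2) / 5 ^ g) := by linarith
    rw [h2]
    exact dvd_sub ha (dvd_mul_right _ _)
  have hb' : (5 ^ g : ℤ) ∣ b - 2 * (t : ℤ) ^ 3 := by
    have h1 := Int.emod_add_mul_ediv (2 * (t : ℤ) ^ 3) (5 ^ g)
    have h2 : b - 2 * (t : ℤ) ^ 3 = (b - (2 * (t : ℤ) ^ 3) % (5 ^ g)) -
        5 ^ g * ((2 * (t : ℤ) ^ 3) / 5 ^ g) := by linarith
    rw [h2]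
    exact dvd_sub hb (dvd_mul_right _ _)
  have ct : ¬ (5 : ℤ) ∣ (t : ℤ) := by
    intro h5
    have h6 : (5 : ℕ) ∣ t := by exact_mod_cast h5
    have h7 : Nat.Coprime 5 t := Nat.Coprime.coprime_dvd_left (dvd_pow_self 5 (by omega)) ht.2
    exact absurd (Nat.Coprime.eq_one_of_dvd h7 h6) (by norm_num)
  constructor
  · intro h5
    have h6 : (5 : ℤ) ∣ a - 3 * (t : ℤ) ^ 2 := dvd_trans (dvd_pow_self 5 (by omega)) ha'
    have h7 : (5 : ℤ) ∣ 3 * (t : ℤ) ^ 2 := by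
      have : 3 * (t : ℤ) ^ 2 = a - (a - 3 * (t : ℤ) ^ 2) := by ring
      rw [this]; exact dvd_sub h5 h6
    have hp : Prime (5 : ℤ) := by norm_num
    rcases hp.dvd_or_dvd h7 with h8 | h8
    · norm_num at h8
    · exact ct (hp.dvd_of_dvd_pow h8)
  · obtain ⟨c, hc⟩ := ha'
    obtain ⟨d, hd⟩ := hb'
    have ea : a = 3 * (t : ℤ) ^ 2 + 5 ^ g * c := by linarith
    have eb : b = 2 * (t : ℤ) ^ 3 + 5 ^ g * d := by linarith
    refine ⟨4 * (3 * (3 * (t : ℤ) ^ 2) ^ 2 * c + 3 * (3 * (t : ℤ) ^ 2) * 5 ^ g * c ^ 2 + (5 ^ g) ^ 2 * c ^ 3) -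
      27 * (2 * (2 * (t : ℤ) ^ 3) * d + 5 ^ g * d ^ 2), ?_⟩
    rw [ea, eb]; ring

/-- statements on the plane from statements on the unit square -/
theorem ae_unit (P : ℝ × ℝ → Prop) (h : ∀ u v : ℤ, ∀ᵐ p ∂(ν.prod ν), P (p.1 + u, p.2 + v)) :
    ∀ᵐ p : ℝ × ℝ, P p := by
  have h1 : ∀ u v : ℤ, ∀ᵐ p : ℝ × ℝ, (p.1 - u, p.2 - v) ∈ Icc (0 : ℝ) 1 ×ˢ Icc (0 : ℝ) 1 → P p := by
    intro u v
    have h2 := h u v
    rw [ν, Measure.prod_restrict, ← Measure.volume_eq_prod,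
      ae_restrict_iff' (measurableSet_Icc.prod measurableSet_Icc)] at h2
    have h3 := (measurePreserving_sub_right (volume : Measure (ℝ × ℝ)) ((u : ℝ), (v : ℝ))).quasiMeasurePreserving.ae h2
    filter_upwards [h3] with p hp hmem
    have h4 := hp hmem
    have e : ((p - ((u : ℝ), (v : ℝ))).1 + (u : ℝ), (p - ((u : ℝ), (v : ℝ))).2 + (v : ℝ)) = p := by
      ext <;> simp
    rw [e] at h4
    exact h4
  have h2 : ∀ᵐ p : ℝ × ℝ, ∀ u v : ℤ, (p.1 - u, p.2 - v) ∈ Icc (0 : ℝ) 1 ×ˢ Icc (0 : ℝ) 1 → P p := by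
    rw [ae_all_iff]
    intro u
    rw [ae_all_iff]
    exact h1 u
  filter_upwards [h2] with p hp
  refine hp ⌊p.1⌋ ⌊p.2⌋ ?_
  have a1 := Int.floor_le p.1
  have a2 := Int.lt_floor_add_one p.1
  have b1 := Int.floor_le p.2
  have b2 := Int.lt_floor_add_one p.2
  exact ⟨⟨by linarith, by linarith⟩, ⟨by linarith, by linarith⟩⟩

/-- the exponents -/
def gg (j : ℕ) : ℕ := Nat.log 5 (2 ^ j / j ^ 3)

theorem gg_le (j : ℕ) (h : 1 ≤ 2 ^ j / j ^ 3) : 5 ^ gg j ≤ 2 ^ j / j ^ 3 :=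
  Nat.pow_log_le_self 5 (by omega)

theorem lt_gg (j : ℕ) : 2 ^ j / j ^ 3 < 5 ^ (gg j + 1) := Nat.lt_pow_succ_log_self (by norm_num) _

/-- the indices -/
def II (j : ℕ) : Finset ℕ := (Finset.range (2 ^ j / j ^ 2)).image (fun i => 2 ^ j + i * j ^ 2)

theorem II_mem {j n : ℕ} (h : n ∈ II j) : 2 ^ j ≤ n ∧ n < 2 ^ (j + 1) := by
  unfold II at h
  rw [Finset.mem_image] at h
  obtain ⟨i, hi, rfl⟩ := h
  rw [Finset.mem_range] at hi
  refine ⟨by omega, ?_⟩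
  rcases Nat.eq_zero_or_pos j with h0 | h0
  · subst h0; simp at hi
  have h1 : (2 ^ j / j ^ 2) * j ^ 2 ≤ 2 ^ j := Nat.div_mul_le_self _ _
  have h2 : i * j ^ 2 < (2 ^ j / j ^ 2) * j ^ 2 := Nat.mul_lt_mul_of_pos_right hi (by positivity)
  have e : 2 ^ (j + 1) = 2 ^ j + 2 ^ j := by ring
  rw [e]
  omega

theorem II_card {j : ℕ} (hj : 1 ≤ j) : (II j).card = 2 ^ j / j ^ 2 := by
  unfold II
  rw [Finset.card_image_of_injective, Finset.card_range]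
  intro a b h
  simp only at h
  have : a * j ^ 2 = b * j ^ 2 := by omega
  exact Nat.eq_of_mul_eq_mul_right (by positivity) this

theorem II_gap {j n m : ℕ} (hn : n ∈ II j) (hm : m ∈ II j) (h : n < m) : n + j ^ 2 ≤ m := by
  unfold II at hn hm
  rw [Finset.mem_image] at hn hm
  obtain ⟨i, -, rfl⟩ := hn
  obtain ⟨k, -, rfl⟩ := hm
  have h1 : i * j ^ 2 < k * j ^ 2 := by omega
  have h2 : i < k := lt_of_mul_lt_mul_right h1 (Nat.zero_le _)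
  have h3 : (i + 1) * j ^ 2 ≤ k * j ^ 2 := Nat.mul_le_mul_right _ h2
  rw [Nat.add_mul, one_mul] at h3
  omega

theorem lac {U : ℕ → ℝ} {lam : ℝ} (hl : 1 < lam) (hU : ∀ n, lam * U n ≤ U (n + 1)) (n k : ℕ) :
    lam ^ k * U n ≤ U (n + k) := by
  induction k with
  | zero => simp
  | succ k ih =>
    calc lam ^ (k + 1) * U n = lam * (lam ^ k * U n) := by ring
      _ ≤ lam * U (n + k) := by gcongr
      _ ≤ U (n + k + 1) := hU _

theorem low_unit (s U r V : ℕ → ℝ) (lam : ℝ) (hl : 1 < lam) (hU0 : ∀ n, 0 < U n) (hV0 : ∀ n, 0 < V n)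
    (hU : ∀ n, lam * U n ≤ U (n + 1)) (hV : ∀ n, lam * V n ≤ V (n + 1)) :
    ∀ᵐ p ∂(ν.prod ν), ∀ J : ℕ, ∃ j, J ≤ j ∧ ∃ n, 2 ^ j ≤ n ∧ n < 2 ^ (j + 1) ∧
      p ∈ EE (s n) (U n) (r n) (V n) (5 ^ gg j) (RR (gg j)) := by
  rw [ae_all_iff]
  intro J
  -- the null set
  obtain ⟨N, hN⟩ : ∃ N : Set (ℝ × ℝ), N = {p | ¬ ∃ j, J ≤ j ∧ ∃ n, 2 ^ j ≤ n ∧ n < 2 ^ (j + 1) ∧
      p ∈ EE (s n) (U n) (r n) (V n) (5 ^ gg j) (RR (gg j))} := ⟨_, rfl⟩
  have hzero : (ν.prod ν).real N = 0 := by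
    apply le_antisymm _ (by positivity)
    apply le_of_forall_pos_le_add
    intro ε hε
    rw [zero_add]
    obtain ⟨η, hη⟩ : ∃ η : ℝ, η = min (1 / 2) (ε / 400) := ⟨_, rfl⟩
    have hη0 : 0 < η := by rw [hη]; exact lt_min (by norm_num) (by linarith)
    have hη1 : η ≤ 1 / 2 := by rw [hη]; exact min_le_left _ _
    have hη2 : η ≤ ε / 400 := by rw [hη]; exact min_le_right _ _
    have hηr : (1 + η) ^ 4 / (1 - η) ^ 4 - 1 ≤ ε / 2 := by
      have h1 : (1 / 2 : ℝ) ^ 4 ≤ (1 - η) ^ 4 := by gcongr; linarith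
      have h2 : 0 < (1 - η) ^ 4 := by positivity
      rw [sub_le_iff_le_add, div_le_iff₀ h2]
      have h3 : (1 + η) ^ 4 - (1 - η) ^ 4 = 8 * η + 8 * η ^ 3 := by ring
      have h4 : η ^ 3 ≤ η * (1 / 4) := by
        have : η ^ 3 = η * (η * η) := by ring
        rw [this]
        gcongr
        nlinarith
      nlinarith
    -- conditions on j
    have e1 : ∀ᶠ j : ℕ in atTop, (4 : ℝ) ≤ lam ^ j :=
      (tendsto_pow_atTop_atTop_of_one_lt hl).eventually_ge_atTop 4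
    have e2 : ∀ᶠ j : ℕ in atTop, 2 * ((1 : ℝ) / 2) ^ j ≤ η := by
      have h1 : Tendsto (fun j : ℕ => 2 * ((1 : ℝ) / 2) ^ j) atTop (𝓝 (2 * 0)) :=
        (tendsto_pow_atTop_nhds_zero_of_lt_one (by norm_num) (by norm_num)).const_mul 2
      rw [mul_zero] at h1
      exact h1.eventually_le_const hη0
    have e3 : ∀ W0 : ℝ, 0 < W0 → ∀ᶠ n : ℕ in atTop, 2 * (n : ℝ) / (lam ^ n * W0) ≤ η := by
      intro W0 hW0
      have h1 : Tendsto (fun n : ℕ => 2 / W0 * ((n : ℝ) ^ 1 / lam ^ n)) atTop (𝓝 (2 / W0 * 0)) :=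
        (tendsto_pow_const_div_const_pow_of_one_lt 1 hl).const_mul _
      rw [mul_zero] at h1
      filter_upwards [h1.eventually_le_const hη0] with n hn
      refine le_trans (le_of_eq ?_) hn
      rw [pow_one]; field_simp
    have ePow : Tendsto (fun j : ℕ => 2 ^ j) atTop (atTop : Filter ℕ) :=
      tendsto_pow_atTop_atTop_of_one_lt (by norm_num)
    obtain ⟨M1, hM1⟩ := eventually_atTop.1 (e3 (U 0) (hU0 0))
    obtain ⟨M2, hM2⟩ := eventually_atTop.1 (e3 (V 0) (hV0 0))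
    have e4 : ∀ᶠ j : ℕ in atTop, max M1 M2 ≤ 2 ^ j := ePow.eventually_ge_atTop _
    have e5 : ∀ᶠ j : ℕ in atTop, 2 * (j : ℝ) ^ 3 ≤ 2 ^ j ∧ 5 * (j : ℝ) ^ 3 ≤ 2 ^ j := by
      have h1 : Tendsto (fun n : ℕ => (n : ℝ) ^ 3 / 2 ^ n) atTop (𝓝 0) :=
        tendsto_pow_const_div_const_pow_of_one_lt 3 (by norm_num)
      filter_upwards [h1.eventually_le_const (by norm_num : (0 : ℝ) < 1 / 5)] with n hn
      rw [div_le_iff₀ (by positivity)] at hn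
      have : (0 : ℝ) ≤ (n : ℝ) ^ 3 := by positivity
      constructor <;> linarith
    obtain ⟨K, hK⟩ := exists_nat_ge (50 / ε)
    have e6 : ∀ᶠ j : ℕ in atTop, max (max J K) 2 ≤ j := eventually_ge_atTop _
    obtain ⟨j, j1, j2, j4, ⟨j5, j5'⟩, j6⟩ := (e1.and (e2.and (e4.and (e5.and e6)))).exists
    have hjJ : J ≤ j := ((le_max_left _ _).trans (le_max_left _ _)).trans j6
    have hjK : K ≤ j := ((le_max_right _ _).trans (le_max_left _ _)).trans j6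
    have hj2 : 2 ≤ j := (le_max_right _ _).trans j6
    have hjR : (2 : ℝ) ≤ j := by exact_mod_cast hj2
    have hj0 : (0 : ℝ) < j := by linarith
    have h5j : 5 ≤ 2 ^ j / j ^ 3 := by
      rw [Nat.le_div_iff_mul_le (by positivity)]
      exact_mod_cast j5'
    have hg1 : 1 ≤ gg j := by
      unfold gg
      exact Nat.log_pos (by norm_num) h5j
    have hq1 : 5 ^ gg j ≤ 2 ^ j / j ^ 3 := gg_le j (by omega)
    have hq2 : 5 ^ gg j ≤ 2 ^ j := hq1.trans (Nat.div_le_self _ _)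
    have hqR2 : ((5 ^ gg j : ℤ) : ℝ) ≤ 2 ^ j := by
      have : ((5 ^ gg j : ℕ) : ℝ) ≤ ((2 ^ j : ℕ) : ℝ) := by exact_mod_cast hq2
      push_cast at this ⊢
      exact this
    have hq0 : (0 : ℝ) < ((5 ^ gg j : ℤ) : ℝ) := by push_cast; positivity
    have hII : (II j).Nonempty := by
      rw [← Finset.card_pos, II_card (by omega)]
      apply Nat.div_pos _ (by positivity)
      have : j ^ 2 ≤ j ^ 3 := Nat.pow_le_pow_right (by omega) (by norm_num)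
      have h7 : 2 * j ^ 3 ≤ 2 ^ j := by exact_mod_cast j5
      omega
    have hcardI : (2 : ℝ) ^ j / (2 * j ^ 2) ≤ (II j).card := by
      rw [II_card (by omega)]
      have h7 : ((2 ^ j : ℕ) : ℝ) / ((j ^ 2 : ℕ) : ℝ) < ((2 ^ j / j ^ 2 : ℕ) : ℝ) + 1 := by
        rw [div_lt_iff₀ (by positivity)]
        have h30 := Nat.div_add_mod (2 ^ j) (j ^ 2)
        have h31 : 2 ^ j % j ^ 2 < j ^ 2 := Nat.mod_lt _ (by positivity)
        have h32 : 2 ^ j < (2 ^ j / j ^ 2 + 1) * j ^ 2 := by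
          rw [Nat.add_mul, one_mul, mul_comm (2 ^ j / j ^ 2)]
          omega
        exact_mod_cast h32
      push_cast at h7
      have h8 : (1 : ℝ) ≤ 2 ^ j / (2 * j ^ 2) := by
        rw [le_div_iff₀ (by positivity)]
        have : (j : ℝ) ^ 2 ≤ (j : ℝ) ^ 3 := pow_le_pow_right₀ (by linarith) (by norm_num)
        linarith
      have h9 : (2 : ℝ) ^ j / j ^ 2 = 2 * (2 ^ j / (2 * j ^ 2)) := by field_simp
      linarith
    have hUcond : ∀ W : ℕ → ℝ, (∀ n, 0 < W n) → (∀ n, lam * W n ≤ W (n + 1)) →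
        (∀ n, max M1 M2 ≤ n → 2 * (n : ℝ) / (lam ^ n * W 0) ≤ η) →
        (∀ i ∈ II j, 0 < W i ∧ 2 * ((5 ^ gg j : ℤ) : ℝ) / W i ≤ η) ∧
        (∀ i ∈ II j, ∀ k ∈ II j, i < k → 2 * W i * ((5 ^ gg j : ℤ) : ℝ) / W k ≤ η) := by
      intro W hW0 hW hWη
      constructor
      · intro i hi
        refine ⟨hW0 i, ?_⟩
        have hi' := II_mem hi
        have h10 := hWη i (j4.trans hi'.1)
        refine le_trans ?_ h10
        have h11 := lac hl hW 0 i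
        rw [zero_add] at h11
        have h12 : ((5 ^ gg j : ℤ) : ℝ) ≤ i := by
          refine hqR2.trans ?_
          exact_mod_cast hi'.1
        have := hW0 0
        gcongr
      · intro i hi k hk hik
        have hgap := II_gap hi hk hik
        obtain ⟨m, hm⟩ := Nat.exists_eq_add_of_le hgap
        have h11 := lac hl hW i (j ^ 2 + m)
        rw [← add_assoc, ← hm] at h11
        have hWi := hW0 i
        have h12 : (4 : ℝ) ^ j * W i ≤ W k := by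
          refine le_trans ?_ h11
          gcongr
          calc (4 : ℝ) ^ j ≤ (lam ^ j) ^ j := by gcongr
            _ = lam ^ (j ^ 2) := by rw [← pow_mul, sq]
            _ ≤ lam ^ (j ^ 2 + m) := pow_le_pow_right₀ hl.le (by omega)
        refine le_trans ?_ j2
        rw [div_le_iff₀ (hW0 k)]
        calc 2 * W i * ((5 ^ gg j : ℤ) : ℝ) ≤ 2 * W i * 2 ^ j := by gcongr
          _ = 2 * (1 / 2) ^ j * (4 ^ j * W i) := by
              have : (2 : ℝ) ^ j = (1 / 2) ^ j * 4 ^ j := by rw [← mul_pow]; norm_num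
              rw [this]; ring
          _ ≤ 2 * (1 / 2) ^ j * W k := by gcongr
    obtain ⟨cU1, cU2⟩ := hUcond U hU0 hU (fun n hn => hM1 n ((le_max_left _ _).trans hn))
    obtain ⟨cV1, cV2⟩ := hUcond V hV0 hV (fun n hn => hM2 n ((le_max_right _ _).trans hn))
    have hRc := RR_card hg1
    have hRn : (RR (gg j)).Nonempty := by
      rw [← Finset.card_pos]
      have : (0 : ℝ) < (RR (gg j)).card := lt_of_lt_of_le (by positivity) hRc
      exact_mod_cast this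
    have hb := block s U r V (5 ^ gg j) (RR (gg j)) (II j) η hη0 hη1 hII
      (one_le_pow₀ (by norm_num)) hRn (fun x hx => RR_mem hx) cU1 cV1 cU2 cV2
    have hNsub : N ⊆ ⋂ i ∈ II j, (EE (s i) (U i) (r i) (V i) (5 ^ gg j) (RR (gg j)))ᶜ := by
      intro p hp
      rw [mem_iInter₂]
      intro i hi hmem
      rw [hN] at hp
      exact hp ⟨j, hjJ, i, (II_mem hi).1, (II_mem hi).2, hmem⟩
    refine (measureReal_mono hNsub (measure_ne_top _ _)).trans (hb.trans ?_)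
    have hlast : 1 / (((II j).card : ℝ) * ((RR (gg j)).card / ((5 ^ gg j : ℤ) : ℝ) ^ 2 * (1 - η) ^ 2)) ≤
        ε / 2 := by
      have hq3 : ((5 ^ gg j : ℤ) : ℝ) ≤ 2 ^ j / j ^ 3 := by
        rw [le_div_iff₀ (by positivity)]
        have : 5 ^ gg j * j ^ 3 ≤ 2 ^ j := by
          calc 5 ^ gg j * j ^ 3 ≤ (2 ^ j / j ^ 3) * j ^ 3 := Nat.mul_le_mul_right _ hq1
            _ ≤ 2 ^ j := Nat.div_mul_le_self _ _
        exact_mod_cast this
      have h20 : 4 / 5 * ((j : ℝ) ^ 3 / 2 ^ j) ≤ (RR (gg j)).card / ((5 ^ gg j : ℤ) : ℝ) ^ 2 := by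
        have h21 : 4 / 5 * (1 / ((5 ^ gg j : ℤ) : ℝ)) ≤ (RR (gg j)).card / ((5 ^ gg j : ℤ) : ℝ) ^ 2 := by
          rw [le_div_iff₀ (by positivity)]
          calc 4 / 5 * (1 / ((5 ^ gg j : ℤ) : ℝ)) * ((5 ^ gg j : ℤ) : ℝ) ^ 2 =
                4 / 5 * ((5 ^ gg j : ℤ) : ℝ) := by field_simp
            _ ≤ _ := by push_cast; exact hRc
        refine le_trans ?_ h21
        have h24 : (j : ℝ) ^ 3 / 2 ^ j ≤ 1 / ((5 ^ gg j : ℤ) : ℝ) := by
          rw [le_div_iff₀ hq0]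
          calc (j : ℝ) ^ 3 / 2 ^ j * ((5 ^ gg j : ℤ) : ℝ) ≤ (j : ℝ) ^ 3 / 2 ^ j * (2 ^ j / j ^ 3) := by
                gcongr
            _ = 1 := by field_simp
        linarith
      have h22 : (1 / 2 : ℝ) ^ 2 ≤ (1 - η) ^ 2 := by gcongr; linarith
      have h23 : (j : ℝ) / 10 ≤ ((II j).card : ℝ) * ((RR (gg j)).card / ((5 ^ gg j : ℤ) : ℝ) ^ 2 * (1 - η) ^ 2) := by
        calc (j : ℝ) / 10 = (2 ^ j / (2 * j ^ 2)) * (4 / 5 * ((j : ℝ) ^ 3 / 2 ^ j) * (1 / 2) ^ 2) := by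
              field_simp; norm_num
          _ ≤ _ := by gcongr
      have hjε : 50 / ε ≤ j := hK.trans (by exact_mod_cast hjK)
      calc _ ≤ 1 / ((j : ℝ) / 10) := by gcongr
        _ = 10 / j := by field_simp
        _ ≤ 10 / (50 / ε) := by gcongr
        _ = ε / 5 := by field_simp; norm_num
        _ ≤ ε / 2 := by linarith
    linarith
  rw [ae_iff]
  rw [← hN]
  rw [measureReal_eq_zero_iff (measure_ne_top _ _)] at hzero
  exact hzero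

theorem low_plane (s U r V : ℕ → ℝ) (lam : ℝ) (hl : 1 < lam) (hU0 : ∀ n, 0 < U n) (hV0 : ∀ n, 0 < V n)
    (hU : ∀ n, lam * U n ≤ U (n + 1)) (hV : ∀ n, lam * V n ≤ V (n + 1)) :
    ∀ᵐ p : ℝ × ℝ, ∀ J : ℕ, ∃ j, J ≤ j ∧ ∃ n, 2 ^ j ≤ n ∧ n < 2 ^ (j + 1) ∧
      ∃ x ∈ RR (gg j), (5 ^ gg j : ℤ) ∣ ⌊s n + p.1 * U n⌋ - x.1 ∧
        (5 ^ gg j : ℤ) ∣ ⌊r n + p.2 * V n⌋ - x.2 := by
  apply ae_unit
  intro u v
  filter_upwards [low_unit (fun n => s n + u * U n) U (fun n => r n + v * V n) V lam hl hU0 hV0 hU hV]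
    with p hp J
  obtain ⟨j, hj, n, h1, h2, x, hx, h3, h4⟩ := hp J
  refine ⟨j, hj, n, h1, h2, x, hx, ?_, ?_⟩
  · have e : s n + (p.1 + u) * U n = s n + u * U n + p.1 * U n := by ring
    simp only [e]; exact h3
  · have e : r n + (p.2 + v) * V n = r n + v * V n + p.2 * V n := by ring
    simp only [e]; exact h4

end Pool.Agent.U73.SZ
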