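import Pool.Agent.U73.SZ.Tail2
import Pool.Agent.U73.SZ.Low

set_option autoImplicit false

/-!
# `|D| ≤ n ^ (1 + ε) N₆` for all but finitely many members of a random sequence (helper73)
-/

namespace Pool.Agent.U73.SZ

open MeasureTheory Set Filter Topology
open Pool.Agent.N906.SZ

/-- `a, b` define an elliptic curve and `|D| ≤ K N₆` for its minimal model -/
def WW (K : ℝ) (a b : ℤ) : Prop := Dd a b ≠ 0 ∧ ∀ (u : ℕ) (a' b' : ℤ), 1 ≤ u → a = (u : ℤ) ^ 4 * a' →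
  b = (u : ℤ) ^ 6 * b' → Mn a' b' → |((Dd a' b' : ℤ) : ℝ)| ≤ K * Nc a' b'

theorem WW_mono {K K' : ℝ} (h : K ≤ K') {a b : ℤ} (hW : WW K a b) : WW K' a b := by
  refine ⟨hW.1, fun u a' b' h1 h2 h3 h4 => (hW.2 u a' b' h1 h2 h3 h4).trans ?_⟩
  gcongr

theorem zero_card {X : ℝ} (hX : 1 ≤ X) (F : Finset (ℤ × ℤ))
    (hF : ∀ x ∈ F, |(x.2 : ℝ)| ≤ X ^ 3 ∧ Dd x.1 x.2 = 0) : (F.card : ℝ) ≤ 3 * X ^ 3 := by
  classical
  refine le_trans ?_ (card_Icc_le (X ^ 3) (one_le_pow₀ hX))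
  have hinj : Set.InjOn (fun x : ℤ × ℤ => x.2) ↑F := by
    intro x hx y hy h
    simp only at h
    have h1 := (hF x hx).2
    have h2 := (hF y hy).2
    unfold Dd at h1 h2
    rw [h] at h1
    have h3 : x.1 ^ 3 = y.1 ^ 3 := by linarith
    have h4 : x.1 = y.1 := (Odd.strictMono_pow (by decide : Odd 3)).injective h3
    exact Prod.ext h4 h
  have h1 : (F.image (fun x : ℤ × ℤ => x.2)).card = F.card := Finset.card_image_of_injOn hinj
  rw [← h1]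
  have h2 : F.image (fun x : ℤ × ℤ => x.2) ⊆ Finset.Icc (-⌊X ^ 3⌋) ⌊X ^ 3⌋ := by
    intro b hb
    rw [Finset.mem_image] at hb
    obtain ⟨x, hx, rfl⟩ := hb
    have h3 := abs_le.1 (hF x hx).1
    rw [Finset.mem_Icc]
    refine ⟨?_, Int.le_floor.2 h3.2⟩
    have : -x.2 ≤ ⌊X ^ 3⌋ := Int.le_floor.2 (by push_cast; linarith [h3.1])
    omega
  exact_mod_cast Finset.card_le_card h2

theorem sum_sq (n : ℕ) : ∑ u ∈ Finset.Icc 1 n, (1 : ℝ) / (u : ℝ) ^ 2 ≤ 2 := by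
  rcases Nat.eq_zero_or_pos n with h0 | h0
  · subst h0; simp
  have h : ∑ u ∈ Finset.Icc 1 n, (1 : ℝ) / (u : ℝ) ^ 2 ≤ 2 - 1 / n := by
    induction n, h0 using Nat.le_induction with
    | base => norm_num
    | succ n hn ih =>
      rw [Finset.sum_Icc_succ_top (by omega)]
      have hn0 : (0 : ℝ) < n := by exact_mod_cast hn
      have h1 : (1 : ℝ) / ((n + 1 : ℕ) : ℝ) ^ 2 ≤ 1 / n - 1 / ((n + 1 : ℕ) : ℝ) := by
        push_cast
        rw [div_sub_div _ _ hn0.ne' (by positivity), div_le_div_iff₀ (by positivity) (by positivity)]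
        nlinarith
      linarith
  have : (0 : ℝ) ≤ 1 / n := by positivity
  linarith

theorem bad_count (hGa : S_GAIN) (hU : S_UP) (hG : S_GENU) (hC : S_CNT) (ε : ℝ) (hε : 0 < ε)
    (hε1 : ε ≤ 1) : ∃ C : ℝ, 0 < C ∧ ∀ (X K : ℝ) (F : Finset (ℤ × ℤ)), 1 ≤ X → 1 ≤ K →
    (∀ x ∈ F, |(x.1 : ℝ)| ≤ X ^ 2 ∧ |(x.2 : ℝ)| ≤ X ^ 3 ∧ ¬ WW K x.1 x.2) →
    (F.card : ℝ) ≤ C * X ^ 5 * (K ^ (-1 + ε) + X ^ (-1 + ε)) := by
  classical
  obtain ⟨C, hC0, h⟩ := tail_up hGa hU hG hC ε hε hε1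
  refine ⟨2 * C + 3, by positivity, ?_⟩
  intro X K F hX hK hF
  have hXp : 0 < X := by linarith
  have hKe : 0 < K ^ (-1 + ε) := Real.rpow_pos_of_pos (by linarith) _
  have hXe : 0 < X ^ (-1 + ε) := Real.rpow_pos_of_pos (by linarith) _
  obtain ⟨F₀, hF₀⟩ : ∃ F₀ : Finset (ℤ × ℤ), F₀ = F.filter (fun x => Dd x.1 x.2 = 0) := ⟨_, rfl⟩
  obtain ⟨G, hG⟩ : ∃ G : ℕ → Finset (ℤ × ℤ), G = fun u : ℕ => F.filter (fun x => ∃ a' b' : ℤ,
    x.1 = (u : ℤ) ^ 4 * a' ∧ x.2 = (u : ℤ) ^ 6 * b' ∧ Mn a' b' ∧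
      K * Nc a' b' < |((Dd a' b' : ℤ) : ℝ)|) := ⟨_, rfl⟩
  obtain ⟨m, hm⟩ : ∃ m : ℕ, m = ⌊√X⌋₊ := ⟨_, rfl⟩
  have hcov : F ⊆ F₀ ∪ (Finset.Icc 1 m).biUnion G := by
    intro x hx
    obtain ⟨x1, x2, x3⟩ := hF x hx
    rw [Finset.mem_union]
    by_cases hD : Dd x.1 x.2 = 0
    · left; rw [hF₀, Finset.mem_filter]; exact ⟨hx, hD⟩
    · right
      unfold WW at x3
      push Not at x3
      obtain ⟨u, a', b', u1, ha, hb, hM, hlt⟩ := x3 hD
      rw [Finset.mem_biUnion]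
      refine ⟨u, ?_, ?_⟩
      · rw [Finset.mem_Icc]
        refine ⟨u1, ?_⟩
        rw [hm]
        apply Nat.le_floor
        apply Real.le_sqrt_of_sq_le
        by_contra hlt'
        push Not at hlt'
        have hu0 : (0 : ℝ) < u := by exact_mod_cast u1
        have ha0 : a' = 0 := by
          have h1 : |(x.1 : ℝ)| = (u : ℝ) ^ 4 * |(a' : ℝ)| := by
            rw [ha]; push_cast; rw [abs_mul, abs_of_pos (by positivity : (0 : ℝ) < (u : ℝ) ^ 4)]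
          rw [h1] at x1
          have h2 : |(a' : ℝ)| < 1 := by
            by_contra hge
            push Not at hge
            have : (u : ℝ) ^ 4 ≤ X ^ 2 := by nlinarith [pow_pos hu0 4]
            have h3 : X ^ 2 < ((u : ℝ) ^ 2) ^ 2 := by gcongr
            rw [← pow_mul] at h3
            norm_num at h3
            linarith
          have h3 : |a'| < 1 := by exact_mod_cast h2
          exact Int.abs_lt_one_iff.1 h3
        have hb0 : b' = 0 := by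
          have h1 : |(x.2 : ℝ)| = (u : ℝ) ^ 6 * |(b' : ℝ)| := by
            rw [hb]; push_cast; rw [abs_mul, abs_of_pos (by positivity : (0 : ℝ) < (u : ℝ) ^ 6)]
          rw [h1] at x2
          have h2 : |(b' : ℝ)| < 1 := by
            by_contra hge
            push Not at hge
            have : (u : ℝ) ^ 6 ≤ X ^ 3 := by nlinarith [pow_pos hu0 6]
            have h3 : X ^ 3 < ((u : ℝ) ^ 2) ^ 3 := by gcongr
            rw [← pow_mul] at h3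
            norm_num at h3
            linarith
          have h3 : |b'| < 1 := by exact_mod_cast h2
          exact Int.abs_lt_one_iff.1 h3
        apply hM.1
        rw [ha0, hb0]; unfold Dd; norm_num
      · rw [hG, Finset.mem_filter]
        exact ⟨hx, a', b', ha, hb, hM, hlt⟩
  have h0 : (F₀.card : ℝ) ≤ 3 * (X ^ 5 * X ^ (-1 + ε)) := by
    have h1 := zero_card hX F₀ (by
      intro x hx
      rw [hF₀, Finset.mem_filter] at hx
      exact ⟨(hF x hx.1).2.1, hx.2⟩)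
    refine h1.trans ?_
    have e1 : X ^ 5 * X ^ (-1 + ε) = X ^ (4 + ε) := by
      rw [← Real.rpow_natCast, ← Real.rpow_add hXp]; congr 1; push_cast; ring
    rw [e1, ← Real.rpow_natCast]
    have e2 : X ^ ((3 : ℕ) : ℝ) ≤ X ^ (4 + ε) :=
      Real.rpow_le_rpow_of_exponent_le hX (by push_cast; linarith)
    linarith
  have hu : ∀ u ∈ Finset.Icc 1 m, ((G u).card : ℝ) ≤
      C * X ^ 5 * (K ^ (-1 + ε) + X ^ (-1 + ε)) * (1 / (u : ℝ) ^ 2) := by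
    intro u hu
    rw [Finset.mem_Icc] at hu
    have hu1 : (1 : ℝ) ≤ u := by exact_mod_cast hu.1
    have hu0 : (0 : ℝ) < u := by linarith
    have huX : (u : ℝ) ^ 2 ≤ X := by
      have h1 : (u : ℝ) ≤ √X := by
        have : (m : ℝ) ≤ √X := by rw [hm]; exact Nat.floor_le (Real.sqrt_nonneg _)
        refine le_trans ?_ this
        exact_mod_cast hu.2
      calc (u : ℝ) ^ 2 ≤ (√X) ^ 2 := by gcongr
        _ = X := Real.sq_sqrt hXp.le
    obtain ⟨Y, hY⟩ : ∃ Y : ℝ, Y = X / (u : ℝ) ^ 2 := ⟨_, rfl⟩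
    have hY1 : 1 ≤ Y := by rw [hY, one_le_div (by positivity)]; exact huX
    have hYp : 0 < Y := by linarith
    have hinj : Set.InjOn (fun x : ℤ × ℤ => (x.1 / (u : ℤ) ^ 4, x.2 / (u : ℤ) ^ 6)) ↑(G u) := by
      intro x hx y hy hxy
      rw [hG, Finset.mem_coe, Finset.mem_filter] at hx hy
      obtain ⟨-, a1, b1, ha1, hb1, -⟩ := hx
      obtain ⟨-, a2, b2, ha2, hb2, -⟩ := hy
      simp only [Prod.mk.injEq] at hxy
      have hu4 : ((u : ℤ) ^ 4) ≠ 0 := pow_ne_zero _ (by have := hu.1; omega)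
      have hu6 : ((u : ℤ) ^ 6) ≠ 0 := pow_ne_zero _ (by have := hu.1; omega)
      rw [ha1, ha2, hb1, hb2, Int.mul_ediv_cancel_left _ hu4, Int.mul_ediv_cancel_left _ hu4,
        Int.mul_ediv_cancel_left _ hu6, Int.mul_ediv_cancel_left _ hu6] at hxy
      exact Prod.ext (by rw [ha1, ha2, hxy.1]) (by rw [hb1, hb2, hxy.2])
    have hc := Finset.card_image_of_injOn hinj
    rw [← hc]
    have h1 := h Y K ((G u).image (fun x : ℤ × ℤ => (x.1 / (u : ℤ) ^ 4, x.2 / (u : ℤ) ^ 6))) hY1 hK (by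
      intro y hy
      rw [Finset.mem_image] at hy
      obtain ⟨x, hx, rfl⟩ := hy
      rw [hG, Finset.mem_filter] at hx
      obtain ⟨hxF, a', b', ha, hb, hM, hlt⟩ := hx
      have hu4 : ((u : ℤ) ^ 4) ≠ 0 := pow_ne_zero _ (by have := hu.1; omega)
      have hu6 : ((u : ℤ) ^ 6) ≠ 0 := pow_ne_zero _ (by have := hu.1; omega)
      simp only
      rw [ha, hb, Int.mul_ediv_cancel_left _ hu4, Int.mul_ediv_cancel_left _ hu6]
      obtain ⟨x1, x2, -⟩ := hF x hxF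
      rw [ha] at x1
      rw [hb] at x2
      push_cast at x1 x2
      rw [abs_mul, abs_of_pos (by positivity : (0 : ℝ) < (u : ℝ) ^ 4)] at x1
      rw [abs_mul, abs_of_pos (by positivity : (0 : ℝ) < (u : ℝ) ^ 6)] at x2
      refine ⟨hM, ?_, ?_, hlt.le⟩
      · rw [hY, div_pow, le_div_iff₀ (by positivity)]
        calc |(a' : ℝ)| * ((u : ℝ) ^ 2) ^ 2 = (u : ℝ) ^ 4 * |(a' : ℝ)| := by ring
          _ ≤ X ^ 2 := x1
      · rw [hY, div_pow, le_div_iff₀ (by positivity)]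
        calc |(b' : ℝ)| * ((u : ℝ) ^ 2) ^ 3 = (u : ℝ) ^ 6 * |(b' : ℝ)| := by ring
          _ ≤ X ^ 3 := x2)
    refine h1.trans ?_
    have hY5 : Y ^ 5 ≤ X ^ 5 * (1 / (u : ℝ) ^ 2) := by
      rw [hY, div_pow, ← pow_mul, div_eq_mul_one_div]
      have hu10 : (u : ℝ) ^ 2 ≤ (u : ℝ) ^ (2 * 5) := pow_le_pow_right₀ hu1 (by norm_num)
      gcongr
    have hYe : Y ^ 5 * Y ^ (-1 + ε) ≤ X ^ 5 * X ^ (-1 + ε) * (1 / (u : ℝ) ^ 2) := by
      have e1 : ∀ Z : ℝ, 0 < Z → Z ^ 5 * Z ^ (-1 + ε) = Z ^ (4 + ε) := by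
        intro Z hZ
        rw [← Real.rpow_natCast, ← Real.rpow_add hZ]; congr 1; push_cast; ring
      rw [e1 Y hYp, e1 X hXp, hY, Real.div_rpow hXp.le (by positivity), div_eq_mul_one_div]
      gcongr
      calc (u : ℝ) ^ 2 = ((u : ℝ) ^ 2) ^ (1 : ℝ) := (Real.rpow_one _).symm
        _ ≤ ((u : ℝ) ^ 2) ^ (4 + ε) := Real.rpow_le_rpow_of_exponent_le (one_le_pow₀ hu1) (by linarith)
    calc C * Y ^ 5 * (K ^ (-1 + ε) + Y ^ (-1 + ε)) = C * (Y ^ 5 * K ^ (-1 + ε) + Y ^ 5 * Y ^ (-1 + ε)) := by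
          ring
      _ ≤ C * (X ^ 5 * (1 / (u : ℝ) ^ 2) * K ^ (-1 + ε) + X ^ 5 * X ^ (-1 + ε) * (1 / (u : ℝ) ^ 2)) := by
          gcongr
      _ = _ := by ring
  have hcard : (F.card : ℝ) ≤ F₀.card + ∑ u ∈ Finset.Icc 1 m, ((G u).card : ℝ) := by
    have h1 := Finset.card_le_card hcov
    have h2 := Finset.card_union_le F₀ ((Finset.Icc 1 m).biUnion G)
    have h3 : ((Finset.Icc 1 m).biUnion G).card ≤ ∑ u ∈ Finset.Icc 1 m, (G u).card :=
      Finset.card_biUnion_le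
    have h4 : F.card ≤ F₀.card + ∑ u ∈ Finset.Icc 1 m, (G u).card := by omega
    exact_mod_cast h4
  have hsum : ∑ u ∈ Finset.Icc 1 m, ((G u).card : ℝ) ≤
      C * X ^ 5 * (K ^ (-1 + ε) + X ^ (-1 + ε)) * 2 := by
    refine (Finset.sum_le_sum hu).trans ?_
    rw [← Finset.mul_sum]
    gcongr
    exact sum_sq m
  calc (F.card : ℝ) ≤ 3 * (X ^ 5 * X ^ (-1 + ε)) + C * X ^ 5 * (K ^ (-1 + ε) + X ^ (-1 + ε)) * 2 := by
        linarith
    _ ≤ 3 * (X ^ 5 * (K ^ (-1 + ε) + X ^ (-1 + ε))) +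
        C * X ^ 5 * (K ^ (-1 + ε) + X ^ (-1 + ε)) * 2 := by
        gcongr
        linarith
    _ = _ := by ring

/-- the measure of the bad set -/
theorem bad_meas (hGa : S_GAIN) (hU : S_UP) (hG : S_GENU) (hC : S_CNT) (M ε : ℝ) (hM : 0 ≤ M)
    (hε : 0 < ε) (hε1 : ε ≤ 1) : ∃ C : ℝ, 0 < C ∧ ∀ (X K s r : ℝ), 1 ≤ X → 1 ≤ K →
    |s| ≤ M * X ^ 2 → |r| ≤ M * X ^ 3 →
    (ν.prod ν) {p : ℝ × ℝ | ¬ WW K ⌊s + p.1 * X ^ 2⌋ ⌊r + p.2 * X ^ 3⌋} ≤
      ENNReal.ofReal (C * (K ^ (-1 + ε) + X ^ (-1 + ε))) := by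
  classical
  obtain ⟨C, hC0, h⟩ := bad_count hGa hU hG hC ε hε hε1
  refine ⟨C * (M + 2) ^ 5, by positivity, ?_⟩
  intro X K s r hX hK hs hr
  have hXp : 0 < X := by linarith
  obtain ⟨Y, hY⟩ : ∃ Y : ℝ, Y = (M + 2) * X := ⟨_, rfl⟩
  have hXY : X ≤ Y := by rw [hY]; nlinarith
  have hY1 : 1 ≤ Y := hX.trans hXY
  have hYp : 0 < Y := by linarith
  obtain ⟨F, hF⟩ : ∃ F : Finset (ℤ × ℤ), F = ((Finset.Icc (-⌊Y ^ 2⌋) ⌊Y ^ 2⌋) ×ˢ
    (Finset.Icc (-⌊Y ^ 3⌋) ⌊Y ^ 3⌋)).filter (fun x => ¬ WW K x.1 x.2) := ⟨_, rfl⟩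
  have hFc := h Y K F hY1 hK (by
    intro x hx
    rw [hF, Finset.mem_filter, Finset.mem_product, Finset.mem_Icc, Finset.mem_Icc] at hx
    obtain ⟨⟨⟨a1, a2⟩, ⟨b1, b2⟩⟩, hW⟩ := hx
    refine ⟨?_, ?_, hW⟩
    · have g1 := Int.floor_le (Y ^ 2)
      have g2 : (x.1 : ℝ) ≤ ⌊Y ^ 2⌋ := by exact_mod_cast a2
      have g3 : -((⌊Y ^ 2⌋ : ℤ) : ℝ) ≤ x.1 := by exact_mod_cast a1
      rw [abs_le]; constructor <;> linarith
    · have g1 := Int.floor_le (Y ^ 3)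
      have g2 : (x.2 : ℝ) ≤ ⌊Y ^ 3⌋ := by exact_mod_cast b2
      have g3 : -((⌊Y ^ 3⌋ : ℤ) : ℝ) ≤ x.2 := by exact_mod_cast b1
      rw [abs_le]; constructor <;> linarith)
  have hsub : {p : ℝ × ℝ | ¬ WW K ⌊s + p.1 * X ^ 2⌋ ⌊r + p.2 * X ^ 3⌋} ∩
      (Icc (0 : ℝ) 1 ×ˢ Icc (0 : ℝ) 1) ⊆
      ⋃ x ∈ F, (Ico (((x.1 : ℝ) - s) / X ^ 2) ((x.1 + 1 - s) / X ^ 2)) ×ˢ
        (Ico (((x.2 : ℝ) - r) / X ^ 3) ((x.2 + 1 - r) / X ^ 3)) := by
    rintro p ⟨hp, ⟨p1, p2⟩, ⟨p3, p4⟩⟩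
    rw [mem_iUnion₂]
    refine ⟨(⌊s + p.1 * X ^ 2⌋, ⌊r + p.2 * X ^ 3⌋), ?_, ?_, ?_⟩
    · rw [hF, Finset.mem_filter, Finset.mem_product, Finset.mem_Icc, Finset.mem_Icc]
      refine ⟨⟨?_, ?_⟩, hp⟩
      · have hX2 : 1 ≤ X ^ 2 := one_le_pow₀ hX
        have hb := abs_le.1 hs
        have hY2 : (M + 2) * X ^ 2 ≤ Y ^ 2 := by
          rw [hY, mul_pow]; gcongr; nlinarith
        have hb1 : s + p.1 * X ^ 2 ≤ Y ^ 2 := by nlinarith
        have hb2 : -(Y ^ 2) + 1 ≤ s + p.1 * X ^ 2 := by nlinarith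
        constructor
        · have hc : -⌊Y ^ 2⌋ ≤ ⌊s + p.1 * X ^ 2⌋ := by
            rw [Int.le_floor]
            push_cast
            have := Int.lt_floor_add_one (Y ^ 2)
            linarith
          exact hc
        · exact Int.floor_le_floor hb1
      · have hX2 : 1 ≤ X ^ 3 := one_le_pow₀ hX
        have hb := abs_le.1 hr
        have hY2 : (M + 2) * X ^ 3 ≤ Y ^ 3 := by
          rw [hY, mul_pow]; gcongr; nlinarith [sq_nonneg (M + 2)]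
        have hb1 : r + p.2 * X ^ 3 ≤ Y ^ 3 := by nlinarith
        have hb2 : -(Y ^ 3) + 1 ≤ r + p.2 * X ^ 3 := by nlinarith
        constructor
        · have hc : -⌊Y ^ 3⌋ ≤ ⌊r + p.2 * X ^ 3⌋ := by
            rw [Int.le_floor]
            push_cast
            have := Int.lt_floor_add_one (Y ^ 3)
            linarith
          exact hc
        · exact Int.floor_le_floor hb1
    · rw [← cell_eq (by positivity)]; rfl
    · rw [← cell_eq (by positivity)]; rfl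
  have hmeas : (ν.prod ν) {p : ℝ × ℝ | ¬ WW K ⌊s + p.1 * X ^ 2⌋ ⌊r + p.2 * X ^ 3⌋} =
      volume ({p : ℝ × ℝ | ¬ WW K ⌊s + p.1 * X ^ 2⌋ ⌊r + p.2 * X ^ 3⌋} ∩
      (Icc (0 : ℝ) 1 ×ˢ Icc (0 : ℝ) 1)) := by
    rw [ν, Measure.prod_restrict, ← Measure.volume_eq_prod,
      Measure.restrict_apply' (measurableSet_Icc.prod measurableSet_Icc)]
  rw [hmeas]
  refine (measure_mono hsub).trans ((measure_biUnion_finset_le _ _).trans ?_)
  have hcell : ∀ x ∈ F, volume ((Ico (((x.1 : ℝ) - s) / X ^ 2) ((x.1 + 1 - s) / X ^ 2)) ×ˢ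
        (Ico (((x.2 : ℝ) - r) / X ^ 3) ((x.2 + 1 - r) / X ^ 3))) = ENNReal.ofReal (1 / X ^ 5) := by
    intro x _
    rw [Measure.volume_eq_prod, Measure.prod_prod, cell_vol (by positivity), cell_vol (by positivity),
      ← ENNReal.ofReal_mul (by positivity)]
    congr 1
    field_simp
  rw [Finset.sum_congr rfl hcell, Finset.sum_const, nsmul_eq_mul, ← ENNReal.ofReal_natCast,
    ← ENNReal.ofReal_mul (by positivity)]
  apply ENNReal.ofReal_le_ofReal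
  have hYe : Y ^ (-1 + ε) ≤ X ^ (-1 + ε) := Real.rpow_le_rpow_of_nonpos hXp hXY (by linarith)
  have hKe : 0 < K ^ (-1 + ε) := Real.rpow_pos_of_pos (by linarith) _
  calc (F.card : ℝ) * (1 / X ^ 5) ≤ (C * Y ^ 5 * (K ^ (-1 + ε) + Y ^ (-1 + ε))) * (1 / X ^ 5) := by gcongr
    _ ≤ (C * Y ^ 5 * (K ^ (-1 + ε) + X ^ (-1 + ε))) * (1 / X ^ 5) := by gcongr
    _ = C * (M + 2) ^ 5 * (K ^ (-1 + ε) + X ^ (-1 + ε)) := by rw [hY]; field_simp

theorem up_unit (hGa : S_GAIN) (hU : S_UP) (hG : S_GENU) (hC : S_CNT) (X s r : ℕ → ℝ) (M c ε : ℝ)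
    (hM : 0 ≤ M) (hX : ∀ n, 1 ≤ X n) (hc : 1 < c) (hXc : ∀ᶠ n : ℕ in atTop, (n : ℝ) ^ c ≤ X n)
    (hs : ∀ n, |s n| ≤ M * X n ^ 2) (hr : ∀ n, |r n| ≤ M * X n ^ 3) (hε : 0 < ε) :
    ∀ᵐ p ∂(ν.prod ν), ∀ᶠ n : ℕ in atTop,
      WW ((n : ℝ) ^ (1 + ε)) ⌊s n + p.1 * X n ^ 2⌋ ⌊r n + p.2 * X n ^ 3⌋ := by
  obtain ⟨δ, hδ⟩ : ∃ δ : ℝ, δ = min (ε / (2 * (1 + ε))) ((1 - 1 / c) / 2) := ⟨_, rfl⟩
  have hc0 : 0 < c := by linarith
  have h1c : 0 < 1 - 1 / c := by rw [sub_pos, div_lt_one hc0]; exact hc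
  have hδ0 : 0 < δ := by rw [hδ]; exact lt_min (by positivity) (by linarith)
  have hδ1 : δ ≤ ε / (2 * (1 + ε)) := by rw [hδ]; exact min_le_left _ _
  have hδ2 : δ ≤ (1 - 1 / c) / 2 := by rw [hδ]; exact min_le_right _ _
  have hδ3 : δ ≤ 1 := by
    have : 0 < 1 / c := by positivity
    linarith
  have hp1 : (1 + ε) * (-1 + δ) < -1 := by
    have h1 : (1 + ε) * δ ≤ ε / 2 := by
      calc (1 + ε) * δ ≤ (1 + ε) * (ε / (2 * (1 + ε))) := by gcongr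
        _ = ε / 2 := by field_simp
    nlinarith
  have hp2 : c * (-1 + δ) < -1 := by
    have h1 : c * δ ≤ (c - 1) / 2 := by
      calc c * δ ≤ c * ((1 - 1 / c) / 2) := by gcongr
        _ = (c - 1) / 2 := by field_simp
    nlinarith
  obtain ⟨C, hC0, h⟩ := bad_meas hGa hU hG hC M δ hM hδ0 hδ3
  obtain ⟨n₀, hn₀⟩ := eventually_atTop.1 hXc
  obtain ⟨b, hb⟩ : ∃ b : ℕ → ℝ, b = fun n => (if n < max n₀ 1 then (1 : ℝ) else 0) +
    C * ((n : ℝ) ^ ((1 + ε) * (-1 + δ)) + (n : ℝ) ^ (c * (-1 + δ))) := ⟨_, rfl⟩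
  have hbs : Summable b := by
    rw [hb]
    refine Summable.add ?_ (Summable.mul_left _ (Summable.add ?_ ?_))
    · apply summable_of_hasFiniteSupport
      refine (Set.finite_lt_nat (max n₀ 1)).subset ?_
      intro n hn
      rw [Function.mem_support] at hn
      by_contra hcon
      exact hn (if_neg hcon)
    · exact Real.summable_nat_rpow.2 hp1
    · exact Real.summable_nat_rpow.2 hp2
  have hb0 : ∀ n, 0 ≤ b n := by
    intro n
    rw [hb]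
    simp only
    split_ifs <;> positivity
  have hle : ∀ n : ℕ, (ν.prod ν) {p : ℝ × ℝ | ¬ WW ((n : ℝ) ^ (1 + ε)) ⌊s n + p.1 * X n ^ 2⌋
      ⌊r n + p.2 * X n ^ 3⌋} ≤ ENNReal.ofReal (b n) := by
    intro n
    by_cases hn : n < max n₀ 1
    · refine prob_le_one.trans ?_
      rw [ENNReal.one_le_ofReal, hb]
      simp only
      rw [if_pos hn]
      have : 0 ≤ C * ((n : ℝ) ^ ((1 + ε) * (-1 + δ)) + (n : ℝ) ^ (c * (-1 + δ))) := by positivity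
      linarith
    · push Not at hn
      have hn1 : (1 : ℝ) ≤ n := by exact_mod_cast (le_max_right n₀ 1).trans hn
      have hnX := hn₀ n ((le_max_left _ _).trans hn)
      refine (h (X n) ((n : ℝ) ^ (1 + ε)) (s n) (r n) (hX n) (Real.one_le_rpow hn1 (by linarith))
        (hs n) (hr n)).trans ?_
      apply ENNReal.ofReal_le_ofReal
      rw [hb]
      simp only
      rw [if_neg (by omega), zero_add]
      have e1 : ((n : ℝ) ^ (1 + ε)) ^ (-1 + δ) = (n : ℝ) ^ ((1 + ε) * (-1 + δ)) := by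
        rw [Real.rpow_mul (by linarith)]
      have e2 : X n ^ (-1 + δ) ≤ (n : ℝ) ^ (c * (-1 + δ)) := by
        rw [Real.rpow_mul (by linarith)]
        exact Real.rpow_le_rpow_of_nonpos (by positivity) hnX (by linarith)
      rw [e1]
      gcongr
  have hfin : ∑' n : ℕ, (ν.prod ν) {p : ℝ × ℝ | ¬ WW ((n : ℝ) ^ (1 + ε)) ⌊s n + p.1 * X n ^ 2⌋
      ⌊r n + p.2 * X n ^ 3⌋} ≠ ⊤ := by
    refine ne_top_of_le_ne_top ?_ (ENNReal.tsum_le_tsum hle)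
    rw [← ENNReal.ofReal_tsum_of_nonneg hb0 hbs]
    exact ENNReal.ofReal_ne_top
  filter_upwards [ae_eventually_notMem hfin] with p hp
  filter_upwards [hp] with n hn
  by_contra hcon
  exact hn hcon

theorem up_plane (hGa : S_GAIN) (hU : S_UP) (hG : S_GENU) (hC : S_CNT) (X s r : ℕ → ℝ) (M c : ℝ)
    (hM : 0 ≤ M) (hX : ∀ n, 1 ≤ X n) (hc : 1 < c) (hXc : ∀ᶠ n : ℕ in atTop, (n : ℝ) ^ c ≤ X n)
    (hs : ∀ n, |s n| ≤ M * X n ^ 2) (hr : ∀ n, |r n| ≤ M * X n ^ 3) :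
    ∀ᵐ p : ℝ × ℝ, ∀ ε : ℝ, 0 < ε → ∀ᶠ n : ℕ in atTop,
      WW ((n : ℝ) ^ (1 + ε)) ⌊s n + p.1 * X n ^ 2⌋ ⌊r n + p.2 * X n ^ 3⌋ := by
  have h1 : ∀ k : ℕ, ∀ᵐ p : ℝ × ℝ, ∀ᶠ n : ℕ in atTop,
      WW ((n : ℝ) ^ (1 + 1 / ((k : ℝ) + 1))) ⌊s n + p.1 * X n ^ 2⌋ ⌊r n + p.2 * X n ^ 3⌋ := by
    intro k
    apply ae_unit
    intro u v
    have h2 := up_unit hGa hU hG hC X (fun n => s n + u * X n ^ 2) (fun n => r n + v * X n ^ 3)
      (M + |(u : ℝ)| + |(v : ℝ)|) c (1 / ((k : ℝ) + 1)) (by positivity) hX hc hXc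
      (by
        intro n
        have := abs_add_le (s n) (u * X n ^ 2)
        rw [abs_mul, abs_of_nonneg (by positivity : (0 : ℝ) ≤ X n ^ 2)] at this
        have h3 := hs n
        have h4 : 0 ≤ |(v : ℝ)| * X n ^ 2 := by positivity
        linarith)
      (by
        intro n
        have := abs_add_le (r n) (v * X n ^ 3)
        have hX3 : 0 ≤ X n ^ 3 := by
          have := hX n
          positivity
        rw [abs_mul, abs_of_nonneg hX3] at this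
        have h3 := hr n
        have h4 : 0 ≤ |(u : ℝ)| * X n ^ 3 := by positivity
        linarith)
      (by positivity)
    filter_upwards [h2] with p hp
    filter_upwards [hp] with n hn
    have e1 : s n + (p.1 + u) * X n ^ 2 = s n + u * X n ^ 2 + p.1 * X n ^ 2 := by ring
    have e2 : r n + (p.2 + v) * X n ^ 3 = r n + v * X n ^ 3 + p.2 * X n ^ 3 := by ring
    simp only [e1, e2]
    exact hn
  rw [← ae_all_iff] at h1
  filter_upwards [h1] with p hp ε hε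
  obtain ⟨k, hk⟩ := exists_nat_one_div_lt hε
  filter_upwards [hp k, eventually_ge_atTop 1] with n hn hn1
  refine WW_mono ?_ hn
  exact Real.rpow_le_rpow_of_exponent_le (by exact_mod_cast hn1) (by linarith)

end Pool.Agent.U73.SZ
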