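import Pool.Agent.U73.SZ.Meas

set_option autoImplicit false

/-!
# The second moment for the pairs `(⌊s + θ U⌋, ⌊r + φ V⌋)` in residue classes (helper73)
-/

namespace Pool.Agent.U73.SZ

open MeasureTheory Set

theorem second_moment {Ω ι : Type*} [MeasurableSpace Ω] [DecidableEq ι] (μ : Measure Ω)
    [IsProbabilityMeasure μ] (I : Finset ι) (E : ι → Set Ω) (hE : ∀ i ∈ I, MeasurableSet (E i))
    (p δ : ℝ) (hp : 0 < p) (hI : I.Nonempty) (hδ : 0 ≤ δ)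
    (h1 : ∀ i ∈ I, p ≤ μ.real (E i))
    (h2 : ∀ i ∈ I, ∀ k ∈ I, i ≠ k → μ.real (E i ∩ E k) ≤ (1 + δ) * p ^ 2) :
    μ.real (⋂ i ∈ I, (E i)ᶜ) ≤ δ + 1 / (I.card * p) := by
  obtain ⟨e, he⟩ : ∃ e : ℝ, e = ∑ i ∈ I, μ.real (E i) := ⟨_, rfl⟩
  have hc0 : (0 : ℝ) < I.card := by exact_mod_cast hI.card_pos
  have hep : I.card * p ≤ e := by
    rw [he]
    calc (I.card : ℝ) * p = ∑ i ∈ I, p := by rw [Finset.sum_const, nsmul_eq_mul]
      _ ≤ _ := Finset.sum_le_sum h1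
  have hcp : 0 < I.card * p := by positivity
  have he0 : 0 < e := by linarith
  obtain ⟨N, hN⟩ : ∃ N : Set Ω, N = ⋂ i ∈ I, (E i)ᶜ := ⟨_, rfl⟩
  have hNm : MeasurableSet N := by
    rw [hN]
    exact Finset.measurableSet_biInter I fun i hi => (hE i hi).compl
  have hpt : ∀ ω, N.indicator (fun _ => e ^ 2) ω ≤
      ((∑ i ∈ I, ∑ k ∈ I, (E i ∩ E k).indicator (fun _ => (1 : ℝ)) ω) -
        2 * e * (∑ i ∈ I, (E i).indicator (fun _ => (1 : ℝ)) ω)) + e ^ 2 := by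
    intro ω
    have e1 : (∑ i ∈ I, ∑ k ∈ I, (E i ∩ E k).indicator (fun _ => (1 : ℝ)) ω) =
        (∑ i ∈ I, (E i).indicator (fun _ => (1 : ℝ)) ω) ^ 2 := by
      rw [sq, Finset.sum_mul_sum]
      refine Finset.sum_congr rfl fun i _ => Finset.sum_congr rfl fun k _ => ?_
      by_cases a1 : ω ∈ E i <;> by_cases a2 : ω ∈ E k <;> simp [indicator, a1, a2]
    rw [e1]
    by_cases hω : ω ∈ N
    · have e2 : (∑ i ∈ I, (E i).indicator (fun _ => (1 : ℝ)) ω) = 0 := by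
        apply Finset.sum_eq_zero
        intro i hi
        rw [hN, mem_iInter₂] at hω
        exact indicator_of_notMem (hω i hi) _
      rw [e2, indicator_of_mem hω]
      simp
    · rw [indicator_of_notMem hω]
      have := sq_nonneg ((∑ i ∈ I, (E i).indicator (fun _ => (1 : ℝ)) ω) - e)
      linarith
  have hi1 : ∀ i ∈ I, Integrable ((E i).indicator (fun _ => (1 : ℝ))) μ := fun i hi =>
    (integrable_const _).indicator (hE i hi)
  have hi2 : ∀ i ∈ I, ∀ k ∈ I, Integrable ((E i ∩ E k).indicator (fun _ => (1 : ℝ))) μ :=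
    fun i hi k hk => (integrable_const _).indicator ((hE i hi).inter (hE k hk))
  have hI1 : Integrable (fun ω => ∑ i ∈ I, (E i).indicator (fun _ => (1 : ℝ)) ω) μ :=
    integrable_finsetSum _ hi1
  have hI2 : Integrable (fun ω => ∑ i ∈ I, ∑ k ∈ I, (E i ∩ E k).indicator (fun _ => (1 : ℝ)) ω) μ :=
    integrable_finsetSum _ fun i hi => integrable_finsetSum _ fun k hk => hi2 i hi k hk
  have hI3 : Integrable (fun ω => (∑ i ∈ I, ∑ k ∈ I, (E i ∩ E k).indicator (fun _ => (1 : ℝ)) ω) -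
      2 * e * (∑ i ∈ I, (E i).indicator (fun _ => (1 : ℝ)) ω)) μ := hI2.sub (hI1.const_mul (2 * e))
  have hI4 : Integrable (fun ω => ((∑ i ∈ I, ∑ k ∈ I, (E i ∩ E k).indicator (fun _ => (1 : ℝ)) ω) -
      2 * e * (∑ i ∈ I, (E i).indicator (fun _ => (1 : ℝ)) ω)) + e ^ 2) μ :=
    hI3.add (integrable_const (e ^ 2))
  have hint := integral_mono ((integrable_const (e ^ 2)).indicator hNm) hI4 hpt
  have hL : ∫ ω, N.indicator (fun _ => e ^ 2) ω ∂μ = μ.real N * e ^ 2 := by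
    rw [integral_indicator_const _ hNm, smul_eq_mul]
  have hR : ∫ ω, (((∑ i ∈ I, ∑ k ∈ I, (E i ∩ E k).indicator (fun _ => (1 : ℝ)) ω) -
        2 * e * (∑ i ∈ I, (E i).indicator (fun _ => (1 : ℝ)) ω)) + e ^ 2) ∂μ =
      ((∑ i ∈ I, ∑ k ∈ I, μ.real (E i ∩ E k)) - 2 * e * e) + e ^ 2 := by
    rw [integral_add hI3 (integrable_const _),
      integral_sub hI2 (hI1.const_mul (2 * e)), integral_const_mul, integral_finsetSum _ hi1,
      integral_finsetSum _ (fun i hi => integrable_finsetSum _ fun k hk => hi2 i hi k hk)]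
    congr 1
    · congr 1
      · refine Finset.sum_congr rfl fun i hi => ?_
        rw [integral_finsetSum _ (hi2 i hi)]
        refine Finset.sum_congr rfl fun k hk => ?_
        rw [integral_indicator_const _ ((hE i hi).inter (hE k hk)), smul_eq_mul, mul_one]
      · rw [he]
        congr 1
        refine Finset.sum_congr rfl fun i hi => ?_
        rw [integral_indicator_const _ (hE i hi), smul_eq_mul, mul_one]
    · simp
  have hint' : μ.real N * e ^ 2 ≤ ((∑ i ∈ I, ∑ k ∈ I, μ.real (E i ∩ E k)) - 2 * e * e) + e ^ 2 := by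
    rw [← hL, ← hR]; exact hint
  have hS : (∑ i ∈ I, ∑ k ∈ I, μ.real (E i ∩ E k)) ≤ e + (1 + δ) * e ^ 2 := by
    have h3 : ∀ i ∈ I, ∑ k ∈ I, μ.real (E i ∩ E k) ≤ μ.real (E i) + I.card * ((1 + δ) * p ^ 2) := by
      intro i hi
      have h4 : ∀ k ∈ I, μ.real (E i ∩ E k) ≤ (if k = i then μ.real (E i) else 0) + (1 + δ) * p ^ 2 := by
        intro k hk
        by_cases hik : k = i
        · rw [if_pos hik, hik, inter_self]
          have : 0 ≤ (1 + δ) * p ^ 2 := by positivity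
          linarith
        · rw [if_neg hik, zero_add]
          exact h2 i hi k hk (Ne.symm hik)
      refine (Finset.sum_le_sum h4).trans (le_of_eq ?_)
      rw [Finset.sum_add_distrib, Finset.sum_ite_eq', if_pos hi, Finset.sum_const, nsmul_eq_mul]
    calc (∑ i ∈ I, ∑ k ∈ I, μ.real (E i ∩ E k)) ≤ ∑ i ∈ I, (μ.real (E i) + I.card * ((1 + δ) * p ^ 2)) :=
          Finset.sum_le_sum h3
      _ = e + (1 + δ) * (I.card * p) ^ 2 := by
          rw [Finset.sum_add_distrib, Finset.sum_const, nsmul_eq_mul, he]; ring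
      _ ≤ e + (1 + δ) * e ^ 2 := by gcongr
  have h5 : μ.real N * e ^ 2 ≤ (δ + 1 / e) * e ^ 2 := by
    have : (δ + 1 / e) * e ^ 2 = δ * e ^ 2 + e := by field_simp
    rw [this]
    nlinarith
  have h6 : μ.real N ≤ δ + 1 / e := le_of_mul_le_mul_right h5 (by positivity)
  rw [← hN]
  refine h6.trans ?_
  gcongr

/-- the points `(θ, φ)` with `(⌊s + θ U⌋, ⌊r + φ V⌋)` in the classes of `R` modulo `q` -/
def EE (s U r V : ℝ) (q : ℤ) (R : Finset (ℤ × ℤ)) : Set (ℝ × ℝ) :=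
  {p : ℝ × ℝ | ∃ x ∈ R, q ∣ ⌊s + p.1 * U⌋ - x.1 ∧ q ∣ ⌊r + p.2 * V⌋ - x.2}

theorem EE_eq (s U r V : ℝ) (q : ℤ) (R : Finset (ℤ × ℤ)) :
    EE s U r V q R = ⋃ x ∈ R, AA s U q x.1 ×ˢ AA r V q x.2 := by
  ext p
  rw [mem_iUnion₂]
  constructor
  · rintro ⟨x, hx, h1, h2⟩; exact ⟨x, hx, h1, h2⟩
  · rintro ⟨x, hx, h1, h2⟩; exact ⟨x, hx, h1, h2⟩

theorem EE_meas (s U r V : ℝ) (q : ℤ) (R : Finset (ℤ × ℤ)) : MeasurableSet (EE s U r V q R) := by
  rw [EE_eq]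
  exact Finset.measurableSet_biUnion R fun x _ => (AA_meas _ _ _ _).prod (AA_meas _ _ _ _)

theorem real_prod (A B : Set ℝ) : (ν.prod ν).real (A ×ˢ B) = ν.real A * ν.real B := by
  rw [Measure.real, Measure.prod_prod, ENNReal.toReal_mul]; rfl

theorem EE_lower {s U r V : ℝ} {q : ℤ} (R : Finset (ℤ × ℤ)) (hU : 0 < U) (hV : 0 < V) (hq : 1 ≤ q)
    (hR : ∀ x ∈ R, 0 ≤ x.1 ∧ x.1 < q ∧ 0 ≤ x.2 ∧ x.2 < q) (h1 : 0 ≤ 1 / (q : ℝ) - 2 / U)
    (h2 : 0 ≤ 1 / (q : ℝ) - 2 / V) :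
    R.card * ((1 / q - 2 / U) * (1 / q - 2 / V)) ≤ (ν.prod ν).real (EE s U r V q R) := by
  have hdisj : (↑R : Set (ℤ × ℤ)).PairwiseDisjoint (fun x => AA s U q x.1 ×ˢ AA r V q x.2) := by
    intro x hx y hy hxy
    rw [Function.onFun, Set.disjoint_left]
    rintro p ⟨a1, a2⟩ ⟨b1, b2⟩
    apply hxy
    have hx' := hR x hx
    have hy' := hR y hy
    have c1 : q ∣ x.1 - y.1 := by
      have := Int.dvd_sub b1 a1
      have e : ⌊s + p.1 * U⌋ - y.1 - (⌊s + p.1 * U⌋ - x.1) = x.1 - y.1 := by ring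
      rwa [e] at this
    have c2 : q ∣ x.2 - y.2 := by
      have := Int.dvd_sub b2 a2
      have e : ⌊r + p.2 * V⌋ - y.2 - (⌊r + p.2 * V⌋ - x.2) = x.2 - y.2 := by ring
      rwa [e] at this
    have d1 : x.1 - y.1 = 0 := Int.eq_zero_of_abs_lt_dvd c1 (by rw [abs_lt]; constructor <;> linarith)
    have d2 : x.2 - y.2 = 0 := Int.eq_zero_of_abs_lt_dvd c2 (by rw [abs_lt]; constructor <;> linarith)
    exact Prod.ext (by omega) (by omega)
  rw [EE_eq, measureReal_biUnion_finset hdisj (fun x _ => (AA_meas _ _ _ _).prod (AA_meas _ _ _ _))]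
  calc (R.card : ℝ) * ((1 / q - 2 / U) * (1 / q - 2 / V)) = ∑ x ∈ R, (1 / q - 2 / U) * (1 / q - 2 / V) := by
        rw [Finset.sum_const, nsmul_eq_mul]
    _ ≤ _ := by
        apply Finset.sum_le_sum
        intro x _
        rw [real_prod]
        have g1 := AA_lower (s := s) (r := x.1) hU hq
        have g2 := AA_lower (s := r) (r := x.2) hV hq
        exact mul_le_mul g1 g2 h2 (by positivity)

theorem EE_pair {s U r V s' U' r' V' : ℝ} {q : ℤ} (R : Finset (ℤ × ℤ)) (hU : 0 < U) (hV : 0 < V)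
    (hU' : 0 < U') (hV' : 0 < V') (hq : 1 ≤ q) :
    (ν.prod ν).real (EE s U r V q R ∩ EE s' U' r' V' q R) ≤
      (R.card : ℝ) ^ 2 * ((((U + 1) / q + 1) * (1 / (U * q) + 2 / U')) *
        (((V + 1) / q + 1) * (1 / (V * q) + 2 / V'))) := by
  have hqR : (1 : ℝ) ≤ q := by exact_mod_cast hq
  have hsub : EE s U r V q R ∩ EE s' U' r' V' q R ⊆ ⋃ x ∈ R, ⋃ y ∈ R,
      (AA s U q x.1 ∩ AA s' U' q y.1) ×ˢ (AA r V q x.2 ∩ AA r' V' q y.2) := by
    rintro p ⟨⟨x, hx, a1, a2⟩, ⟨y, hy, b1, b2⟩⟩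
    rw [mem_iUnion₂]
    refine ⟨x, hx, ?_⟩
    rw [mem_iUnion₂]
    exact ⟨y, hy, ⟨a1, b1⟩, ⟨a2, b2⟩⟩
  refine (measureReal_mono hsub (measure_ne_top _ _)).trans ((measureReal_biUnion_finset_le _ _).trans ?_)
  have h1 : ∀ x ∈ R, (ν.prod ν).real (⋃ y ∈ R,
      (AA s U q x.1 ∩ AA s' U' q y.1) ×ˢ (AA r V q x.2 ∩ AA r' V' q y.2)) ≤
      R.card * ((((U + 1) / q + 1) * (1 / (U * q) + 2 / U')) *
        (((V + 1) / q + 1) * (1 / (V * q) + 2 / V'))) := by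
    intro x _
    refine (measureReal_biUnion_finset_le _ _).trans ?_
    calc _ ≤ ∑ y ∈ R, ((((U + 1) / q + 1) * (1 / (U * q) + 2 / U')) *
        (((V + 1) / q + 1) * (1 / (V * q) + 2 / V'))) := by
          apply Finset.sum_le_sum
          intro y _
          rw [real_prod]
          exact mul_le_mul (AA_pair hU hU' hq) (AA_pair hV hV' hq) (by positivity) (by positivity)
      _ = _ := by rw [Finset.sum_const, nsmul_eq_mul]
  refine (Finset.sum_le_sum h1).trans (le_of_eq ?_)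
  rw [Finset.sum_const, nsmul_eq_mul]
  ring

/-- the estimate for one block of indices -/
theorem block (s U r V : ℕ → ℝ) (q : ℤ) (R : Finset (ℤ × ℤ)) (I : Finset ℕ) (η : ℝ) (hη : 0 < η)
    (hη1 : η ≤ 1 / 2) (hI : I.Nonempty) (hq : 1 ≤ q) (hRn : R.Nonempty)
    (hR : ∀ x ∈ R, 0 ≤ x.1 ∧ x.1 < q ∧ 0 ≤ x.2 ∧ x.2 < q)
    (hU : ∀ i ∈ I, 0 < U i ∧ 2 * q / U i ≤ η) (hV : ∀ i ∈ I, 0 < V i ∧ 2 * q / V i ≤ η)
    (hUU : ∀ i ∈ I, ∀ k ∈ I, i < k → 2 * U i * q / U k ≤ η)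
    (hVV : ∀ i ∈ I, ∀ k ∈ I, i < k → 2 * V i * q / V k ≤ η) :
    (ν.prod ν).real (⋂ i ∈ I, (EE (s i) (U i) (r i) (V i) q R)ᶜ) ≤
      ((1 + η) ^ 4 / (1 - η) ^ 4 - 1) + 1 / (I.card * (R.card / q ^ 2 * (1 - η) ^ 2)) := by
  have hqR : (1 : ℝ) ≤ q := by exact_mod_cast hq
  have hq0 : (0 : ℝ) < q := by linarith
  have hRc : (0 : ℝ) < R.card := by exact_mod_cast hRn.card_pos
  have h1η : 0 < 1 - η := by linarith
  have hratio : 1 ≤ (1 + η) ^ 4 / (1 - η) ^ 4 := by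
    rw [one_le_div (by positivity)]
    gcongr
    linarith
  have hlow : ∀ W : ℝ, 0 < W → 2 * q / W ≤ η → 1 / (q : ℝ) * (1 - η) ≤ 1 / q - 2 / W := by
    intro W hW hWη
    have e1 : 1 / (q : ℝ) - 2 / W = 1 / q * (1 - 2 * q / W) := by field_simp
    rw [e1]
    gcongr
  have hup : ∀ W W' : ℝ, 0 < W → 0 < W' → 2 * q / W ≤ η → 2 * W * q / W' ≤ η →
      ((W + 1) / q + 1) * (1 / (W * q) + 2 / W') ≤ 1 / q ^ 2 * (1 + η) ^ 2 := by
    intro W W' hW hW' h1 h2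
    have e1 : ((W + 1) / q + 1) * (1 / (W * q) + 2 / W') =
        1 / q ^ 2 * ((1 + (1 + q) / W) * (1 + 2 * W * q / W')) := by field_simp; ring
    rw [e1]
    have h3 : (1 + q) / W ≤ η := by
      refine le_trans ?_ h1
      gcongr
      linarith
    have h4 : (1 + (1 + q) / W) * (1 + 2 * W * q / W') ≤ (1 + η) * (1 + η) := by gcongr
    rw [sq (1 + η)]
    gcongr
  have hmain := second_moment (ν.prod ν) I (fun i => EE (s i) (U i) (r i) (V i) q R)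
    (fun i _ => EE_meas _ _ _ _ _ _) (R.card / q ^ 2 * (1 - η) ^ 2) ((1 + η) ^ 4 / (1 - η) ^ 4 - 1)
    (by positivity) hI (by linarith)
    (by
      intro i hi
      obtain ⟨u1, u2⟩ := hU i hi
      obtain ⟨v1, v2⟩ := hV i hi
      have g1 := hlow _ u1 u2
      have g2 := hlow _ v1 v2
      have g0 : 0 ≤ 1 / (q : ℝ) * (1 - η) := by positivity
      have g3 : 0 ≤ 1 / (q : ℝ) - 2 / U i := g0.trans g1
      refine le_trans ?_ (EE_lower R u1 v1 hq hR (by linarith) (by linarith))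
      calc (R.card : ℝ) / q ^ 2 * (1 - η) ^ 2 = R.card * ((1 / q * (1 - η)) * (1 / q * (1 - η))) := by
            field_simp
        _ ≤ _ := by gcongr)
    (by
      have hkey : ∀ i ∈ I, ∀ k ∈ I, i < k →
          (ν.prod ν).real (EE (s i) (U i) (r i) (V i) q R ∩ EE (s k) (U k) (r k) (V k) q R) ≤
          (1 + ((1 + η) ^ 4 / (1 - η) ^ 4 - 1)) * (R.card / q ^ 2 * (1 - η) ^ 2) ^ 2 := by
        intro i hi k hk hik
        obtain ⟨u1, u2⟩ := hU i hi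
        obtain ⟨v1, v2⟩ := hV i hi
        obtain ⟨u1', u2'⟩ := hU k hk
        obtain ⟨v1', v2'⟩ := hV k hk
        refine (EE_pair R u1 v1 u1' v1' hq).trans ?_
        have g1 := hup _ _ u1 u1' u2 (hUU i hi k hk hik)
        have g2 := hup _ _ v1 v1' v2 (hVV i hi k hk hik)
        calc _ ≤ (R.card : ℝ) ^ 2 * ((1 / q ^ 2 * (1 + η) ^ 2) * (1 / q ^ 2 * (1 + η) ^ 2)) := by gcongr
          _ = _ := by field_simp; ring
      intro i hi k hk hik
      rcases lt_or_gt_of_ne hik with h | h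
      · exact hkey i hi k hk h
      · rw [inter_comm]; exact hkey k hk i hi h)
  exact hmain

end Pool.Agent.U73.SZ
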