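import Pool.Agent.U73.SZ.Up

set_option autoImplicit false

/-!
# The minimal discriminant of a random member is not small (helper73)
-/

namespace Pool.Agent.U73.SZ

open MeasureTheory Set Filter Topology
open Pool.Agent.N906.SZ

theorem meas_box (P : ℤ → ℤ → Prop) (M X s r T : ℝ) (hM : 0 ≤ M) (hX : 1 ≤ X)
    (hs : |s| ≤ M * X ^ 2) (hr : |r| ≤ M * X ^ 3) (hT : 0 ≤ T)
    (h : ∀ F : Finset (ℤ × ℤ), (∀ x ∈ F, |(x.1 : ℝ)| ≤ ((M + 2) * X) ^ 2 ∧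
      |(x.2 : ℝ)| ≤ ((M + 2) * X) ^ 3 ∧ P x.1 x.2) → (F.card : ℝ) ≤ T) :
    (ν.prod ν) {p : ℝ × ℝ | P ⌊s + p.1 * X ^ 2⌋ ⌊r + p.2 * X ^ 3⌋} ≤ ENNReal.ofReal (T / X ^ 5) := by
  classical
  have hXp : 0 < X := by linarith
  obtain ⟨Y, hY⟩ : ∃ Y : ℝ, Y = (M + 2) * X := ⟨_, rfl⟩
  rw [← hY] at h
  have hXY : X ≤ Y := by rw [hY]; nlinarith
  have hY1 : 1 ≤ Y := hX.trans hXY
  have hYp : 0 < Y := by linarith
  obtain ⟨F, hF⟩ : ∃ F : Finset (ℤ × ℤ), F = ((Finset.Icc (-⌊Y ^ 2⌋) ⌊Y ^ 2⌋) ×ˢ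
    (Finset.Icc (-⌊Y ^ 3⌋) ⌊Y ^ 3⌋)).filter (fun x => P x.1 x.2) := ⟨_, rfl⟩
  have hFc := h F (by
    intro x hx
    rw [hF, Finset.mem_filter, Finset.mem_product, Finset.mem_Icc, Finset.mem_Icc] at hx
    obtain ⟨⟨⟨a1, a2⟩, ⟨b1, b2⟩⟩, hW⟩ := hx
    refine ⟨?_, ?_, hW⟩
    · have g1 := Int.floor_le (Y ^ 2)
      have g2 : (x.1 : ℝ) ≤ ⌊Y ^ 2⌋ := by exact_mod_cast a2
      have g3 : -((⌊Y ^ 2⌋ : ℤ) : ℝ) ≤ x.1 := by exact_mod_cast a1
      rw [abs_le]; constructor <;> linarith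
    · have g1 := Int.floor_le (Y ^ 3)
      have g2 : (x.2 : ℝ) ≤ ⌊Y ^ 3⌋ := by exact_mod_cast b2
      have g3 : -((⌊Y ^ 3⌋ : ℤ) : ℝ) ≤ x.2 := by exact_mod_cast b1
      rw [abs_le]; constructor <;> linarith)
  have hsub : {p : ℝ × ℝ | P ⌊s + p.1 * X ^ 2⌋ ⌊r + p.2 * X ^ 3⌋} ∩
      (Icc (0 : ℝ) 1 ×ˢ Icc (0 : ℝ) 1) ⊆
      ⋃ x ∈ F, (Ico (((x.1 : ℝ) - s) / X ^ 2) ((x.1 + 1 - s) / X ^ 2)) ×ˢ
        (Ico (((x.2 : ℝ) - r) / X ^ 3) ((x.2 + 1 - r) / X ^ 3)) := by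
    rintro p ⟨hp, ⟨p1, p2⟩, ⟨p3, p4⟩⟩
    rw [mem_iUnion₂]
    refine ⟨(⌊s + p.1 * X ^ 2⌋, ⌊r + p.2 * X ^ 3⌋), ?_, ?_, ?_⟩
    · rw [hF, Finset.mem_filter, Finset.mem_product, Finset.mem_Icc, Finset.mem_Icc]
      refine ⟨⟨?_, ?_⟩, hp⟩
      · have hX2 : 1 ≤ X ^ 2 := one_le_pow₀ hX
        have hb := abs_le.1 hs
        have hY2 : (M + 2) * X ^ 2 ≤ Y ^ 2 := by
          rw [hY, mul_pow]; gcongr; nlinarith
        have hb1 : s + p.1 * X ^ 2 ≤ Y ^ 2 := by nlinarith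
        have hb2 : -(Y ^ 2) + 1 ≤ s + p.1 * X ^ 2 := by nlinarith
        constructor
        · have hc : -⌊Y ^ 2⌋ ≤ ⌊s + p.1 * X ^ 2⌋ := by
            rw [Int.le_floor]
            push_cast
            have := Int.lt_floor_add_one (Y ^ 2)
            linarith
          exact hc
        · exact Int.floor_le_floor hb1
      · have hX2 : 1 ≤ X ^ 3 := one_le_pow₀ hX
        have hb := abs_le.1 hr
        have hY2 : (M + 2) * X ^ 3 ≤ Y ^ 3 := by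
          rw [hY, mul_pow]; gcongr; nlinarith [sq_nonneg (M + 2)]
        have hb1 : r + p.2 * X ^ 3 ≤ Y ^ 3 := by nlinarith
        have hb2 : -(Y ^ 3) + 1 ≤ r + p.2 * X ^ 3 := by nlinarith
        constructor
        · have hc : -⌊Y ^ 3⌋ ≤ ⌊r + p.2 * X ^ 3⌋ := by
            rw [Int.le_floor]
            push_cast
            have := Int.lt_floor_add_one (Y ^ 3)
            linarith
          exact hc
        · exact Int.floor_le_floor hb1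
    · rw [← cell_eq (by positivity)]; rfl
    · rw [← cell_eq (by positivity)]; rfl
  have hmeas : (ν.prod ν) {p : ℝ × ℝ | P ⌊s + p.1 * X ^ 2⌋ ⌊r + p.2 * X ^ 3⌋} =
      volume ({p : ℝ × ℝ | P ⌊s + p.1 * X ^ 2⌋ ⌊r + p.2 * X ^ 3⌋} ∩
      (Icc (0 : ℝ) 1 ×ˢ Icc (0 : ℝ) 1)) := by
    rw [ν, Measure.prod_restrict, ← Measure.volume_eq_prod,
      Measure.restrict_apply' (measurableSet_Icc.prod measurableSet_Icc)]
  rw [hmeas]
  refine (measure_mono hsub).trans ((measure_biUnion_finset_le _ _).trans ?_)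
  have hcell : ∀ x ∈ F, volume ((Ico (((x.1 : ℝ) - s) / X ^ 2) ((x.1 + 1 - s) / X ^ 2)) ×ˢ
        (Ico (((x.2 : ℝ) - r) / X ^ 3) ((x.2 + 1 - r) / X ^ 3))) = ENNReal.ofReal (1 / X ^ 5) := by
    intro x _
    rw [Measure.volume_eq_prod, Measure.prod_prod, cell_vol (by positivity), cell_vol (by positivity),
      ← ENNReal.ofReal_mul (by positivity)]
    congr 1
    field_simp
  rw [Finset.sum_congr rfl hcell, Finset.sum_const, nsmul_eq_mul, ← ENNReal.ofReal_natCast,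
    ← ENNReal.ofReal_mul (by positivity)]
  apply ENNReal.ofReal_le_ofReal
  calc (F.card : ℝ) * (1 / X ^ 5) ≤ T * (1 / X ^ 5) := by gcongr
    _ = T / X ^ 5 := by ring

/-- few `b ≥ 0` with `|4 a³ - 27 b²| < Y` -/
theorem b_card {Y : ℝ} (hY : 1 ≤ Y) (a : ℤ) (F : Finset ℤ)
    (hF : ∀ b ∈ F, 0 ≤ b ∧ |((Dd a b : ℤ) : ℝ)| < Y) : (F.card : ℝ) ≤ 2 * √Y := by
  have hs1 : 1 ≤ √Y := Real.one_le_sqrt.2 hY
  rcases F.eq_empty_or_nonempty with h0 | h0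
  · rw [h0]; simp
  obtain ⟨m, hm1, hm2⟩ : ∃ m ∈ F, ∀ b ∈ F, m ≤ b := ⟨F.min' h0, F.min'_mem h0, fun b hb => F.min'_le b hb⟩
  have hsub : F ⊆ Finset.Icc m (m + ⌊√Y⌋) := by
    intro b hb
    rw [Finset.mem_Icc]
    refine ⟨hm2 b hb, ?_⟩
    have hbm := hm2 b hb
    obtain ⟨b0, b1⟩ := hF b hb
    obtain ⟨m0, m1⟩ := hF m hm1
    have h3 : b - m ≤ ⌊√Y⌋ := by
      rw [Int.le_floor]
      apply Real.le_sqrt_of_sq_le
      push_cast
      have hbmR : (m : ℝ) ≤ b := by exact_mod_cast hbm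
      have m0R : (0 : ℝ) ≤ m := by exact_mod_cast m0
      unfold Dd at b1 m1
      push_cast at b1 m1
      rw [abs_lt] at b1 m1
      nlinarith
    omega
  have h1 := Finset.card_le_card hsub
  rw [Int.card_Icc] at h1
  have h2 : ((m + ⌊√Y⌋ + 1 - m).toNat : ℤ) = ⌊√Y⌋ + 1 := by
    rw [Int.toNat_of_nonneg]
    · ring
    · have : 0 ≤ ⌊√Y⌋ := Int.floor_nonneg.2 (by linarith)
      linarith
  have h3 : ((m + ⌊√Y⌋ + 1 - m).toNat : ℝ) = (⌊√Y⌋ : ℝ) + 1 := by exact_mod_cast h2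
  have h4 : (F.card : ℝ) ≤ ((m + ⌊√Y⌋ + 1 - m).toNat : ℝ) := by exact_mod_cast h1
  rw [h3] at h4
  have := Int.floor_le (√Y)
  linarith

theorem disc_card {X Y : ℝ} (hX : 1 ≤ X) (hY : 1 ≤ Y) (F : Finset (ℤ × ℤ))
    (hF : ∀ x ∈ F, |(x.1 : ℝ)| ≤ X ^ 2 ∧ |((Dd x.1 x.2 : ℤ) : ℝ)| < Y) :
    (F.card : ℝ) ≤ 12 * X ^ 2 * √Y := by
  classical
  have hfib : ∀ a ∈ Finset.Icc (-⌊X ^ 2⌋) ⌊X ^ 2⌋, ((F.filter (fun x => x.1 = a)).card : ℝ) ≤ 4 * √Y := by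
    intro a _
    have h1 : ((F.filter (fun x => x.1 = a ∧ 0 ≤ x.2)).card : ℝ) ≤ 2 * √Y := by
      have hinj : Set.InjOn (fun x : ℤ × ℤ => x.2) ↑(F.filter (fun x => x.1 = a ∧ 0 ≤ x.2)) := by
        intro x hx y hy h
        rw [Finset.mem_coe, Finset.mem_filter] at hx hy
        exact Prod.ext (hx.2.1.trans hy.2.1.symm) h
      rw [← Finset.card_image_of_injOn hinj]
      apply b_card hY a
      intro b hb
      rw [Finset.mem_image] at hb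
      obtain ⟨x, hx, rfl⟩ := hb
      rw [Finset.mem_filter] at hx
      refine ⟨hx.2.2, ?_⟩
      rw [← hx.2.1]
      exact (hF x hx.1).2
    have h2 : ((F.filter (fun x => x.1 = a ∧ x.2 < 0)).card : ℝ) ≤ 2 * √Y := by
      have hinj : Set.InjOn (fun x : ℤ × ℤ => -x.2) ↑(F.filter (fun x => x.1 = a ∧ x.2 < 0)) := by
        intro x hx y hy h
        rw [Finset.mem_coe, Finset.mem_filter] at hx hy
        exact Prod.ext (hx.2.1.trans hy.2.1.symm) (neg_injective h)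
      rw [← Finset.card_image_of_injOn hinj]
      apply b_card hY a
      intro b hb
      rw [Finset.mem_image] at hb
      obtain ⟨x, hx, rfl⟩ := hb
      rw [Finset.mem_filter] at hx
      refine ⟨by linarith [hx.2.2], ?_⟩
      rw [← hx.2.1]
      have := (hF x hx.1).2
      unfold Dd at this ⊢
      rw [neg_sq]; exact this
    have h3 : F.filter (fun x => x.1 = a) ⊆ F.filter (fun x => x.1 = a ∧ 0 ≤ x.2) ∪
        F.filter (fun x => x.1 = a ∧ x.2 < 0) := by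
      intro x hx
      rw [Finset.mem_filter] at hx
      rw [Finset.mem_union, Finset.mem_filter, Finset.mem_filter]
      rcases le_or_gt 0 x.2 with h | h
      · left; exact ⟨hx.1, hx.2, h⟩
      · right; exact ⟨hx.1, hx.2, h⟩
    have h4 := (Finset.card_le_card h3).trans (Finset.card_union_le _ _)
    have h5 : ((F.filter (fun x => x.1 = a)).card : ℝ) ≤
        ((F.filter (fun x => x.1 = a ∧ 0 ≤ x.2)).card : ℝ) +
        ((F.filter (fun x => x.1 = a ∧ x.2 < 0)).card : ℝ) := by exact_mod_cast h4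
    linarith
  have hcov : F ⊆ (Finset.Icc (-⌊X ^ 2⌋) ⌊X ^ 2⌋).biUnion (fun a => F.filter (fun x => x.1 = a)) := by
    intro x hx
    rw [Finset.mem_biUnion]
    have h3 := abs_le.1 (hF x hx).1
    refine ⟨x.1, ?_, Finset.mem_filter.2 ⟨hx, rfl⟩⟩
    rw [Finset.mem_Icc]
    refine ⟨?_, Int.le_floor.2 h3.2⟩
    have : -x.1 ≤ ⌊X ^ 2⌋ := Int.le_floor.2 (by push_cast; linarith [h3.1])
    omega
  have h1 := (Finset.card_le_card hcov).trans Finset.card_biUnion_le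
  have h2 : (F.card : ℝ) ≤ ∑ a ∈ Finset.Icc (-⌊X ^ 2⌋) ⌊X ^ 2⌋, ((F.filter (fun x => x.1 = a)).card : ℝ) := by
    exact_mod_cast h1
  refine h2.trans ((Finset.sum_le_sum hfib).trans ?_)
  rw [Finset.sum_const, nsmul_eq_mul]
  have h3 := card_Icc_le (X ^ 2) (one_le_pow₀ hX)
  calc _ ≤ (3 * X ^ 2) * (4 * √Y) := by gcongr
    _ = _ := by ring

/-- the minimal discriminant is smaller than `Y` -/
def SD (Y : ℝ) (a b : ℤ) : Prop := ∃ (u : ℕ) (a' b' : ℤ), 1 ≤ u ∧ a = (u : ℤ) ^ 4 * a' ∧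
  b = (u : ℤ) ^ 6 * b' ∧ Mn a' b' ∧ |((Dd a' b' : ℤ) : ℝ)| < Y

theorem sd_count {X Y : ℝ} (hX : 1 ≤ X) (hY : 1 ≤ Y) (F : Finset (ℤ × ℤ))
    (hF : ∀ x ∈ F, |(x.1 : ℝ)| ≤ X ^ 2 ∧ |(x.2 : ℝ)| ≤ X ^ 3 ∧ SD Y x.1 x.2) :
    (F.card : ℝ) ≤ 24 * X ^ 2 * √Y := by
  classical
  have hXp : 0 < X := by linarith
  obtain ⟨G, hG⟩ : ∃ G : ℕ → Finset (ℤ × ℤ), G = fun u : ℕ => F.filter (fun x => ∃ a' b' : ℤ,
    x.1 = (u : ℤ) ^ 4 * a' ∧ x.2 = (u : ℤ) ^ 6 * b' ∧ Mn a' b' ∧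
      |((Dd a' b' : ℤ) : ℝ)| < Y) := ⟨_, rfl⟩
  obtain ⟨m, hm⟩ : ∃ m : ℕ, m = ⌊√X⌋₊ := ⟨_, rfl⟩
  have hcov : F ⊆ (Finset.Icc 1 m).biUnion G := by
    intro x hx
    obtain ⟨x1, x2, u, a', b', u1, ha, hb, hM, hlt⟩ := hF x hx
    rw [Finset.mem_biUnion]
    refine ⟨u, ?_, ?_⟩
    · rw [Finset.mem_Icc]
      refine ⟨u1, ?_⟩
      rw [hm]
      apply Nat.le_floor
      apply Real.le_sqrt_of_sq_le
      by_contra hlt'
      push Not at hlt'
      have hu0 : (0 : ℝ) < u := by exact_mod_cast u1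
      have ha0 : a' = 0 := by
        have h1 : |(x.1 : ℝ)| = (u : ℝ) ^ 4 * |(a' : ℝ)| := by
          rw [ha]; push_cast; rw [abs_mul, abs_of_pos (by positivity : (0 : ℝ) < (u : ℝ) ^ 4)]
        rw [h1] at x1
        have h2 : |(a' : ℝ)| < 1 := by
          by_contra hge
          push Not at hge
          have : (u : ℝ) ^ 4 ≤ X ^ 2 := by nlinarith [pow_pos hu0 4]
          have h3 : X ^ 2 < ((u : ℝ) ^ 2) ^ 2 := by gcongr
          rw [← pow_mul] at h3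
          norm_num at h3
          linarith
        have h3 : |a'| < 1 := by exact_mod_cast h2
        exact Int.abs_lt_one_iff.1 h3
      have hb0 : b' = 0 := by
        have h1 : |(x.2 : ℝ)| = (u : ℝ) ^ 6 * |(b' : ℝ)| := by
          rw [hb]; push_cast; rw [abs_mul, abs_of_pos (by positivity : (0 : ℝ) < (u : ℝ) ^ 6)]
        rw [h1] at x2
        have h2 : |(b' : ℝ)| < 1 := by
          by_contra hge
          push Not at hge
          have : (u : ℝ) ^ 6 ≤ X ^ 3 := by nlinarith [pow_pos hu0 6]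
          have h3 : X ^ 3 < ((u : ℝ) ^ 2) ^ 3 := by gcongr
          rw [← pow_mul] at h3
          norm_num at h3
          linarith
        have h3 : |b'| < 1 := by exact_mod_cast h2
        exact Int.abs_lt_one_iff.1 h3
      apply hM.1
      rw [ha0, hb0]; unfold Dd; norm_num
    · rw [hG, Finset.mem_filter]
      exact ⟨hx, a', b', ha, hb, hM, hlt⟩
  have hu : ∀ u ∈ Finset.Icc 1 m, ((G u).card : ℝ) ≤ 12 * X ^ 2 * √Y * (1 / (u : ℝ) ^ 2) := by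
    intro u hu
    rw [Finset.mem_Icc] at hu
    have hu1 : (1 : ℝ) ≤ u := by exact_mod_cast hu.1
    have hu0 : (0 : ℝ) < u := by linarith
    have huX : (u : ℝ) ^ 2 ≤ X := by
      have h1 : (u : ℝ) ≤ √X := by
        have : (m : ℝ) ≤ √X := by rw [hm]; exact Nat.floor_le (Real.sqrt_nonneg _)
        refine le_trans ?_ this
        exact_mod_cast hu.2
      calc (u : ℝ) ^ 2 ≤ (√X) ^ 2 := by gcongr
        _ = X := Real.sq_sqrt hXp.le
    obtain ⟨Z, hZ⟩ : ∃ Z : ℝ, Z = X / (u : ℝ) ^ 2 := ⟨_, rfl⟩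
    have hZ1 : 1 ≤ Z := by rw [hZ, one_le_div (by positivity)]; exact huX
    have hu4 : ((u : ℤ) ^ 4) ≠ 0 := pow_ne_zero _ (by have := hu.1; omega)
    have hu6 : ((u : ℤ) ^ 6) ≠ 0 := pow_ne_zero _ (by have := hu.1; omega)
    have hinj : Set.InjOn (fun x : ℤ × ℤ => (x.1 / (u : ℤ) ^ 4, x.2 / (u : ℤ) ^ 6)) ↑(G u) := by
      intro x hx y hy hxy
      rw [hG, Finset.mem_coe, Finset.mem_filter] at hx hy
      obtain ⟨-, a1, b1, ha1, hb1, -⟩ := hx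
      obtain ⟨-, a2, b2, ha2, hb2, -⟩ := hy
      simp only [Prod.mk.injEq] at hxy
      rw [ha1, ha2, hb1, hb2, Int.mul_ediv_cancel_left _ hu4, Int.mul_ediv_cancel_left _ hu4,
        Int.mul_ediv_cancel_left _ hu6, Int.mul_ediv_cancel_left _ hu6] at hxy
      exact Prod.ext (by rw [ha1, ha2, hxy.1]) (by rw [hb1, hb2, hxy.2])
    rw [← Finset.card_image_of_injOn hinj]
    have h1 := disc_card (X := Z) (Y := Y) hZ1 hY
      ((G u).image (fun x : ℤ × ℤ => (x.1 / (u : ℤ) ^ 4, x.2 / (u : ℤ) ^ 6))) (by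
      intro y hy
      rw [Finset.mem_image] at hy
      obtain ⟨x, hx, rfl⟩ := hy
      rw [hG, Finset.mem_filter] at hx
      obtain ⟨hxF, a', b', ha, hb, hM, hlt⟩ := hx
      simp only
      rw [ha, hb, Int.mul_ediv_cancel_left _ hu4, Int.mul_ediv_cancel_left _ hu6]
      obtain ⟨x1, x2, -⟩ := hF x hxF
      rw [ha] at x1
      push_cast at x1
      rw [abs_mul, abs_of_pos (by positivity : (0 : ℝ) < (u : ℝ) ^ 4)] at x1
      refine ⟨?_, hlt⟩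
      rw [hZ, div_pow, le_div_iff₀ (by positivity)]
      calc |(a' : ℝ)| * ((u : ℝ) ^ 2) ^ 2 = (u : ℝ) ^ 4 * |(a' : ℝ)| := by ring
        _ ≤ X ^ 2 := x1)
    refine h1.trans ?_
    have hZ2 : Z ^ 2 ≤ X ^ 2 * (1 / (u : ℝ) ^ 2) := by
      rw [hZ, div_pow, ← pow_mul, div_eq_mul_one_div]
      have hu10 : (u : ℝ) ^ 2 ≤ (u : ℝ) ^ (2 * 2) := pow_le_pow_right₀ hu1 (by norm_num)
      gcongr
    calc 12 * Z ^ 2 * √Y ≤ 12 * (X ^ 2 * (1 / (u : ℝ) ^ 2)) * √Y := by gcongr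
      _ = _ := by ring
  have h1 := (Finset.card_le_card hcov).trans Finset.card_biUnion_le
  have h2 : (F.card : ℝ) ≤ ∑ u ∈ Finset.Icc 1 m, ((G u).card : ℝ) := by exact_mod_cast h1
  refine h2.trans ((Finset.sum_le_sum hu).trans ?_)
  rw [← Finset.mul_sum]
  calc 12 * X ^ 2 * √Y * ∑ u ∈ Finset.Icc 1 m, 1 / (u : ℝ) ^ 2 ≤ 12 * X ^ 2 * √Y * 2 := by
        gcongr
        exact sum_sq m
    _ = _ := by ring

/-- almost surely the minimal discriminants are at least `X n` -/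
theorem disc_plane (X s r : ℕ → ℝ) (M c : ℝ) (hM : 0 ≤ M) (hX : ∀ n, 1 ≤ X n) (hc : 1 < c)
    (hXc : ∀ᶠ n : ℕ in atTop, (n : ℝ) ^ c ≤ X n)
    (hs : ∀ n, |s n| ≤ M * X n ^ 2) (hr : ∀ n, |r n| ≤ M * X n ^ 3) :
    ∀ᵐ p : ℝ × ℝ, ∀ᶠ n : ℕ in atTop, ¬ SD (X n) ⌊s n + p.1 * X n ^ 2⌋ ⌊r n + p.2 * X n ^ 3⌋ := by
  apply ae_unit
  intro u v
  obtain ⟨M', hM'⟩ : ∃ M' : ℝ, M' = M + |(u : ℝ)| + |(v : ℝ)| := ⟨_, rfl⟩
  have hM'0 : 0 ≤ M' := by rw [hM']; positivity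
  obtain ⟨C, hC⟩ : ∃ C : ℝ, C = 24 * (M' + 2) ^ 2 := ⟨_, rfl⟩
  have hC0 : 0 < C := by rw [hC]; positivity
  have hle1 : ∀ n, (ν.prod ν) {p : ℝ × ℝ | SD (X n) ⌊(s n + u * X n ^ 2) + p.1 * X n ^ 2⌋
      ⌊(r n + v * X n ^ 3) + p.2 * X n ^ 3⌋} ≤ ENNReal.ofReal (C * (X n)⁻¹) := by
    intro n
    have hXn := hX n
    have hXp : 0 < X n := by linarith
    have h1 := meas_box (SD (X n)) M' (X n) (s n + u * X n ^ 2) (r n + v * X n ^ 3)
      (24 * ((M' + 2) * X n) ^ 2 * √(X n)) hM'0 hXn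
      (by
        have := abs_add_le (s n) (u * X n ^ 2)
        rw [abs_mul, abs_of_nonneg (by positivity : (0 : ℝ) ≤ X n ^ 2)] at this
        have h3 := hs n
        have h4 : 0 ≤ |(v : ℝ)| * X n ^ 2 := by positivity
        rw [hM']
        linarith)
      (by
        have := abs_add_le (r n) (v * X n ^ 3)
        rw [abs_mul, abs_of_nonneg (by positivity : (0 : ℝ) ≤ X n ^ 3)] at this
        have h3 := hr n
        have h4 : 0 ≤ |(u : ℝ)| * X n ^ 3 := by positivity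
        rw [hM']
        linarith)
      (by positivity)
      (fun F hF => sd_count (by nlinarith) hXn F hF)
    refine h1.trans (ENNReal.ofReal_le_ofReal ?_)
    have hsq : √(X n) ≤ X n := by
      rw [Real.sqrt_le_left hXp.le]
      nlinarith
    rw [div_le_iff₀ (by positivity)]
    calc 24 * ((M' + 2) * X n) ^ 2 * √(X n) ≤ 24 * ((M' + 2) * X n) ^ 2 * X n := by gcongr
      _ = C * X n ^ 3 := by rw [hC]; ring
      _ ≤ C * X n ^ 4 := by
          have : X n ^ 3 ≤ X n ^ 4 := pow_le_pow_right₀ hXn (by norm_num)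
          gcongr
      _ = C * (X n)⁻¹ * X n ^ 5 := by field_simp
  obtain ⟨n₀, hn₀⟩ := eventually_atTop.1 hXc
  obtain ⟨b, hb⟩ : ∃ b : ℕ → ℝ, b = fun n => (if n < max n₀ 1 then (1 : ℝ) else 0) +
    C * ((n : ℝ) ^ (-c)) := ⟨_, rfl⟩
  have hbs : Summable b := by
    rw [hb]
    refine Summable.add ?_ (Summable.mul_left _ ?_)
    · apply summable_of_hasFiniteSupport
      refine (Set.finite_lt_nat (max n₀ 1)).subset ?_
      intro n hn
      rw [Function.mem_support] at hn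
      by_contra hcon
      exact hn (if_neg hcon)
    · exact Real.summable_nat_rpow.2 (by linarith)
  have hb0 : ∀ n, 0 ≤ b n := by
    intro n
    rw [hb]
    simp only
    split_ifs <;> positivity
  have hle : ∀ n : ℕ, (ν.prod ν) {p : ℝ × ℝ | SD (X n) ⌊(s n + u * X n ^ 2) + p.1 * X n ^ 2⌋
      ⌊(r n + v * X n ^ 3) + p.2 * X n ^ 3⌋} ≤ ENNReal.ofReal (b n) := by
    intro n
    by_cases hn : n < max n₀ 1
    · refine prob_le_one.trans ?_
      rw [ENNReal.one_le_ofReal, hb]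
      simp only
      rw [if_pos hn]
      have : 0 ≤ C * ((n : ℝ) ^ (-c)) := by positivity
      linarith
    · push Not at hn
      have hn1 : (1 : ℝ) ≤ n := by exact_mod_cast (le_max_right n₀ 1).trans hn
      have hnX := hn₀ n ((le_max_left _ _).trans hn)
      refine (hle1 n).trans (ENNReal.ofReal_le_ofReal ?_)
      rw [hb]
      simp only
      rw [if_neg (by omega), zero_add, Real.rpow_neg (by linarith)]
      gcongr
  have hfin : ∑' n : ℕ, (ν.prod ν) {p : ℝ × ℝ | SD (X n) ⌊(s n + u * X n ^ 2) + p.1 * X n ^ 2⌋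
      ⌊(r n + v * X n ^ 3) + p.2 * X n ^ 3⌋} ≠ ⊤ := by
    refine ne_top_of_le_ne_top ?_ (ENNReal.tsum_le_tsum hle)
    rw [← ENNReal.ofReal_tsum_of_nonneg hb0 hbs]
    exact ENNReal.ofReal_ne_top
  filter_upwards [ae_eventually_notMem hfin] with p hp
  filter_upwards [hp] with n hn hcon
  apply hn
  have e1 : s n + (p.1 + u) * X n ^ 2 = s n + u * X n ^ 2 + p.1 * X n ^ 2 := by ring
  have e2 : r n + (p.2 + v) * X n ^ 3 = r n + v * X n ^ 3 + p.2 * X n ^ 3 := by ring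
  simp only [e1, e2] at hcon
  exact hcon

end Pool.Agent.U73.SZ
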