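import Mathlib

set_option autoImplicit false

/-!
# Measures of the sets of `θ` with `⌊s + θ U⌋` in a residue class (helper73)
-/

namespace Pool.Agent.U73.SZ

open MeasureTheory Set

/-- Lebesgue measure on the unit interval -/
noncomputable def ν : Measure ℝ := volume.restrict (Icc (0 : ℝ) 1)

instance : IsProbabilityMeasure ν := by
  constructor
  rw [ν, Measure.restrict_apply MeasurableSet.univ, univ_inter, Real.volume_Icc]
  norm_num

/-- the set of `θ` with `⌊s + θ U⌋ ≡ r` modulo `q` -/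
def AA (s U : ℝ) (q r : ℤ) : Set ℝ := {θ : ℝ | q ∣ ⌊s + θ * U⌋ - r}

theorem AA_meas (s U : ℝ) (q r : ℤ) : MeasurableSet (AA s U q r) := by
  have h1 : Measurable (fun θ : ℝ => ⌊s + θ * U⌋) := by
    have : Measurable (fun θ : ℝ => s + θ * U) := by fun_prop
    exact Int.measurable_floor.comp this
  have h2 : MeasurableSet {m : ℤ | q ∣ m - r} := MeasurableSet.of_discrete
  exact h1 h2

/-- the cell of `θ` with `⌊s + θ U⌋ = m` -/
theorem cell_eq {s U : ℝ} (hU : 0 < U) (m : ℤ) :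
    {θ : ℝ | ⌊s + θ * U⌋ = m} = Ico ((m - s) / U) ((m + 1 - s) / U) := by
  ext θ
  rw [mem_ofPred_eq, Int.floor_eq_iff, mem_Ico, div_le_iff₀ hU, lt_div_iff₀ hU]
  constructor
  · rintro ⟨h1, h2⟩; constructor <;> linarith
  · rintro ⟨h1, h2⟩; constructor <;> linarith

theorem cell_vol {s U : ℝ} (hU : 0 < U) (m : ℤ) :
    volume (Ico (((m : ℝ) - s) / U) ((m + 1 - s) / U)) = ENNReal.ofReal (1 / U) := by
  rw [Real.volume_Ico]
  congr 1
  field_simp
  ring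

theorem card_Icc_le_real {y₁ y₂ : ℝ} (h : y₁ ≤ y₂ + 1) :
    ((Finset.Icc ⌈y₁⌉ ⌊y₂⌋).card : ℝ) ≤ y₂ - y₁ + 1 := by
  rw [Int.card_Icc]
  have h1 := Int.le_ceil y₁
  have h2 := Int.floor_le y₂
  rcases le_or_gt 0 (⌊y₂⌋ + 1 - ⌈y₁⌉) with h0 | h0
  · have : (((⌊y₂⌋ + 1 - ⌈y₁⌉).toNat : ℤ) : ℝ) = ((⌊y₂⌋ + 1 - ⌈y₁⌉ : ℤ) : ℝ) := by
      rw [Int.toNat_of_nonneg h0]
    have h3 : (((⌊y₂⌋ + 1 - ⌈y₁⌉).toNat : ℕ) : ℝ) = ((⌊y₂⌋ + 1 - ⌈y₁⌉ : ℤ) : ℝ) := by
      rw [← this]; norm_cast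
    rw [h3]; push_cast; linarith
  · rw [Int.toNat_of_nonpos h0.le]
    push_cast; linarith

theorem le_card_Icc_real {y₁ y₂ : ℝ} : y₂ - y₁ - 1 ≤ ((Finset.Icc ⌈y₁⌉ ⌊y₂⌋).card : ℝ) := by
  rw [Int.card_Icc]
  have h1 := Int.ceil_lt_add_one y₁
  have h2 := Int.lt_floor_add_one y₂
  have h3 : ((⌊y₂⌋ + 1 - ⌈y₁⌉ : ℤ) : ℝ) ≤ (((⌊y₂⌋ + 1 - ⌈y₁⌉).toNat : ℕ) : ℝ) := by
    have := Int.self_le_toNat (⌊y₂⌋ + 1 - ⌈y₁⌉)
    exact_mod_cast this
  push_cast at h3
  linarith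

/-- covering of `AA ∩ [α, β]` by cells -/
theorem AA_cover {s U α β : ℝ} {q r : ℤ} (hU : 0 < U) (hq : 0 < q) :
    AA s U q r ∩ Icc α β ⊆ ⋃ k ∈ Finset.Icc ⌈(s + α * U - 1 - r) / q⌉ ⌊(s + β * U - r) / q⌋,
      Ico ((((r + q * k : ℤ) : ℝ) - s) / U) ((((r + q * k : ℤ) : ℝ) + 1 - s) / U) := by
  rintro θ ⟨h1, h2, h3⟩
  obtain ⟨k, hk⟩ := h1
  have hfl : ⌊s + θ * U⌋ = r + q * k := by omega
  have hqR : (0 : ℝ) < q := by exact_mod_cast hq
  have e1 : ((⌊s + θ * U⌋ : ℤ) : ℝ) = r + q * k := by rw [hfl]; push_cast; ring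
  have g1 := Int.floor_le (s + θ * U)
  have g2 := Int.lt_floor_add_one (s + θ * U)
  rw [e1] at g1 g2
  have m1 : α * U ≤ θ * U := by gcongr
  have m2 : θ * U ≤ β * U := by gcongr
  rw [mem_iUnion₂]
  refine ⟨k, ?_, ?_⟩
  · rw [Finset.mem_Icc, Int.ceil_le, Int.le_floor, div_le_iff₀ hqR, le_div_iff₀ hqR]
    constructor <;> linarith
  · rw [← cell_eq hU]; exact hfl

theorem AA_upper {s U α β : ℝ} {q r : ℤ} (hU : 0 < U) (hq : 1 ≤ q) (hαβ : α ≤ β) :
    volume (AA s U q r ∩ Icc α β) ≤ ENNReal.ofReal ((β - α) / q + 2 / U) := by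
  have hqR : (1 : ℝ) ≤ q := by exact_mod_cast hq
  have hq0 : (0 : ℝ) < q := by linarith
  refine (measure_mono (AA_cover hU (by omega))).trans ?_
  refine (measure_biUnion_finset_le _ _).trans ?_
  rw [Finset.sum_congr rfl (fun k _ => cell_vol hU (r + q * k))]
  rw [Finset.sum_const, nsmul_eq_mul]
  have hc := card_Icc_le_real (y₁ := (s + α * U - 1 - r) / q) (y₂ := (s + β * U - r) / q) (by
    have : (s + α * U - 1 - r) / q ≤ (s + β * U - r) / q := by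
      have : α * U ≤ β * U := by gcongr
      gcongr
      linarith
    linarith)
  rw [← ENNReal.ofReal_natCast, ← ENNReal.ofReal_mul (by positivity)]
  apply ENNReal.ofReal_le_ofReal
  calc _ ≤ ((s + β * U - r) / q - (s + α * U - 1 - r) / q + 1) * (1 / U) := by gcongr
    _ = (β - α) / q + (1 / q + 1) / U := by field_simp; ring
    _ ≤ (β - α) / q + 2 / U := by
        have : 1 / (q : ℝ) ≤ 1 := by rw [div_le_one hq0]; exact hqR
        gcongr; linarith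

theorem ν_real (A : Set ℝ) (hA : MeasurableSet A) : ν.real A = (volume (A ∩ Icc (0 : ℝ) 1)).toReal := by
  rw [Measure.real, ν, Measure.restrict_apply hA]

theorem AA_lower {s U : ℝ} {q r : ℤ} (hU : 0 < U) (hq : 1 ≤ q) :
    1 / q - 2 / U ≤ ν.real (AA s U q r) := by
  have hqR : (1 : ℝ) ≤ q := by exact_mod_cast hq
  have hq0 : (0 : ℝ) < q := by linarith
  have hsub : (⋃ k ∈ Finset.Icc ⌈(s - r) / q⌉ ⌊(s + U - 1 - r) / q⌋,
      Ico ((((r + q * k : ℤ) : ℝ) - s) / U) ((((r + q * k : ℤ) : ℝ) + 1 - s) / U)) ⊆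
      AA s U q r ∩ Icc 0 1 := by
    intro θ hθ
    rw [mem_iUnion₂] at hθ
    obtain ⟨k, hk, hθ⟩ := hθ
    rw [Finset.mem_Icc, Int.ceil_le, Int.le_floor, div_le_iff₀ hq0, le_div_iff₀ hq0] at hk
    have hc : ⌊s + θ * U⌋ = r + q * k := by
      have := cell_eq (s := s) hU (r + q * k)
      rw [← this] at hθ
      exact hθ
    refine ⟨⟨k, by rw [hc]; ring⟩, ?_, ?_⟩
    · have h1 := hθ.1
      rw [div_le_iff₀ hU] at h1
      push_cast at h1
      have h2 : 0 ≤ θ * U := by linarith [hk.1]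
      by_contra hneg
      push Not at hneg
      have := mul_neg_of_neg_of_pos hneg hU
      linarith
    · have h1 := hθ.2
      rw [lt_div_iff₀ hU] at h1
      push_cast at h1
      have h2 : θ * U ≤ 1 * U := by linarith [hk.2]
      exact le_of_mul_le_mul_right h2 hU
  have hdisj : (↑(Finset.Icc ⌈(s - r) / q⌉ ⌊(s + U - 1 - r) / q⌋) : Set ℤ).PairwiseDisjoint
      (fun k : ℤ => Ico ((((r + q * k : ℤ) : ℝ) - s) / U) ((((r + q * k : ℤ) : ℝ) + 1 - s) / U)) := by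
    intro k _ l _ hkl
    rw [Function.onFun, Set.disjoint_left]
    intro θ h1 h2
    rw [← cell_eq hU] at h1 h2
    have h3 : r + q * k = r + q * l := h1.symm.trans h2
    have h4 : q * k = q * l := by omega
    exact hkl (mul_left_cancel₀ (by omega) h4)
  rw [ν_real _ (AA_meas _ _ _ _)]
  have h1 := measure_mono (μ := volume) hsub
  rw [measure_biUnion_finset hdisj (fun k _ => measurableSet_Ico),
    Finset.sum_congr rfl (fun k _ => cell_vol hU (r + q * k)), Finset.sum_const, nsmul_eq_mul,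
    ← ENNReal.ofReal_natCast, ← ENNReal.ofReal_mul (by positivity)] at h1
  have hfin : volume (AA s U q r ∩ Icc 0 1) ≠ ⊤ :=
    ne_top_of_le_ne_top (by rw [Real.volume_Icc]; exact ENNReal.ofReal_ne_top)
      (measure_mono inter_subset_right)
  have h2 := (ENNReal.ofReal_le_iff_le_toReal hfin).1 h1
  refine le_trans ?_ h2
  have hc := le_card_Icc_real (y₁ := (s - r) / q) (y₂ := (s + U - 1 - r) / q)
  calc 1 / (q : ℝ) - 2 / U ≤ ((s + U - 1 - r) / q - (s - r) / q - 1) * (1 / U) := by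
        have e1 : ((s + U - 1 - r) / q - (s - r) / q - 1) * (1 / U) = 1 / q - (1 / q + 1) / U := by
          field_simp; ring
        rw [e1]
        have : 1 / (q : ℝ) ≤ 1 := by rw [div_le_one hq0]; exact hqR
        have h3 : (1 / (q : ℝ) + 1) / U ≤ 2 / U := by gcongr; linarith
        linarith
    _ ≤ _ := by gcongr

/-- two conditions -/
theorem AA_pair {s U s' U' : ℝ} {q r r' : ℤ} (hU : 0 < U) (hU' : 0 < U') (hq : 1 ≤ q) :
    ν.real (AA s U q r ∩ AA s' U' q r') ≤ ((U + 1) / q + 1) * (1 / (U * q) + 2 / U') := by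
  have hqR : (1 : ℝ) ≤ q := by exact_mod_cast hq
  have hq0 : (0 : ℝ) < q := by linarith
  rw [ν_real _ ((AA_meas _ _ _ _).inter (AA_meas _ _ _ _))]
  apply ENNReal.toReal_le_of_le_ofReal (by positivity)
  have hsub : AA s U q r ∩ AA s' U' q r' ∩ Icc 0 1 ⊆
      ⋃ k ∈ Finset.Icc ⌈(s + 0 * U - 1 - r) / q⌉ ⌊(s + 1 * U - r) / q⌋,
        (AA s' U' q r' ∩ Icc ((((r + q * k : ℤ) : ℝ) - s) / U) ((((r + q * k : ℤ) : ℝ) + 1 - s) / U)) := by
    rintro θ ⟨⟨h1, h2⟩, h3⟩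
    have h4 := AA_cover hU (by omega : 0 < q) ⟨h1, h3⟩
    rw [mem_iUnion₂] at h4 ⊢
    obtain ⟨k, hk, h5⟩ := h4
    exact ⟨k, hk, h2, Ico_subset_Icc_self h5⟩
  refine (measure_mono hsub).trans ((measure_biUnion_finset_le _ _).trans ?_)
  have hb : ∀ k ∈ Finset.Icc ⌈(s + 0 * U - 1 - r) / q⌉ ⌊(s + 1 * U - r) / q⌋,
      volume (AA s' U' q r' ∩ Icc ((((r + q * k : ℤ) : ℝ) - s) / U) ((((r + q * k : ℤ) : ℝ) + 1 - s) / U)) ≤
      ENNReal.ofReal (1 / (U * q) + 2 / U') := by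
    intro k _
    have hle : (((r + q * k : ℤ) : ℝ) - s) / U ≤ (((r + q * k : ℤ) : ℝ) + 1 - s) / U := by
      gcongr; linarith
    refine (AA_upper hU' hq hle).trans (ENNReal.ofReal_le_ofReal (le_of_eq ?_))
    field_simp
    ring
  refine (Finset.sum_le_sum hb).trans ?_
  rw [Finset.sum_const, nsmul_eq_mul, ← ENNReal.ofReal_natCast, ← ENNReal.ofReal_mul (by positivity)]
  apply ENNReal.ofReal_le_ofReal
  have hc := card_Icc_le_real (y₁ := (s + 0 * U - 1 - r) / q) (y₂ := (s + 1 * U - r) / q) (by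
    have : (s + 0 * U - 1 - r) / q ≤ (s + 1 * U - r) / q := by
      gcongr
      linarith
    linarith)
  calc _ ≤ ((s + 1 * U - r) / q - (s + 0 * U - 1 - r) / q + 1) * (1 / (U * q) + 2 / U') := by gcongr
    _ = ((U + 1) / q + 1) * (1 / (U * q) + 2 / U') := by
        congr 1
        field_simp
        ring

end Pool.Agent.U73.SZ
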