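import Pool.Agent.N906.SZ.Cnt

set_option autoImplicit false

/-!
# The tail of `|D| / N₆` over all minimal models, uniformly (helper73)

From the parts `S_UP`, `S_CNT`, `S_GENU`, `S_GAIN`, `S_LOWQ` of the project SZ of helper906.
-/

namespace Pool.Agent.U73.SZ

open Finset Filter Topology
open Pool.Agent.N906.SZ

theorem disc_le {X : ℝ} {a b : ℤ} (h1 : |(a : ℝ)| ≤ X ^ 2) (h2 : |(b : ℝ)| ≤ X ^ 3) :
    |((Dd a b : ℤ) : ℝ)| ≤ 31 * X ^ 6 := by
  unfold Dd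
  push_cast
  have h3 : |(a : ℝ)| ^ 3 ≤ (X ^ 2) ^ 3 := by gcongr
  have h4 : |(b : ℝ)| ^ 2 ≤ (X ^ 3) ^ 2 := by gcongr
  calc |4 * (a : ℝ) ^ 3 - 27 * (b : ℝ) ^ 2| ≤ |4 * (a : ℝ) ^ 3| + |27 * (b : ℝ) ^ 2| := abs_sub _ _
    _ = 4 * |(a : ℝ)| ^ 3 + 27 * |(b : ℝ)| ^ 2 := by
        rw [abs_mul, abs_mul, abs_pow, abs_pow]; norm_num
    _ ≤ 4 * (X ^ 2) ^ 3 + 27 * (X ^ 3) ^ 2 := by gcongr
    _ = _ := by ring

theorem card_Icc_le (Y : ℝ) (hY : 1 ≤ Y) : ((Icc (-⌊Y⌋) ⌊Y⌋).card : ℝ) ≤ 3 * Y := by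
  have h0 : 0 ≤ ⌊Y⌋ := Int.floor_nonneg.2 (by linarith)
  rw [Int.card_Icc]
  have h1 : ((⌊Y⌋ + 1 - -⌊Y⌋).toNat : ℤ) = 2 * ⌊Y⌋ + 1 := by
    rw [Int.toNat_of_nonneg (by omega)]; ring
  have h2 : (((⌊Y⌋ + 1 - -⌊Y⌋).toNat : ℕ) : ℝ) = 2 * ((⌊Y⌋ : ℤ) : ℝ) + 1 := by
    exact_mod_cast h1
  rw [h2]
  have := Int.floor_le Y
  linarith

theorem box_card {X : ℝ} (hX : 1 ≤ X) (F : Finset (ℤ × ℤ))
    (hF : ∀ x ∈ F, |(x.1 : ℝ)| ≤ X ^ 2 ∧ |(x.2 : ℝ)| ≤ X ^ 3) : (F.card : ℝ) ≤ 9 * X ^ 5 := by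
  have hsub : F ⊆ (Icc (-⌊X ^ 2⌋) ⌊X ^ 2⌋) ×ˢ (Icc (-⌊X ^ 3⌋) ⌊X ^ 3⌋) := by
    intro x hx
    obtain ⟨h1, h2⟩ := hF x hx
    rw [abs_le] at h1 h2
    rw [mem_product, mem_Icc, mem_Icc]
    refine ⟨⟨?_, Int.le_floor.2 h1.2⟩, ⟨?_, Int.le_floor.2 h2.2⟩⟩
    · have : -x.1 ≤ ⌊X ^ 2⌋ := Int.le_floor.2 (by push_cast; linarith [h1.1])
      omega
    · have : -x.2 ≤ ⌊X ^ 3⌋ := Int.le_floor.2 (by push_cast; linarith [h2.1])
      omega
  have h1 := card_Icc_le (X ^ 2) (one_le_pow₀ hX)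
  have h2 := card_Icc_le (X ^ 3) (one_le_pow₀ hX)
  have h3 : (F.card : ℝ) ≤ ((Icc (-⌊X ^ 2⌋) ⌊X ^ 2⌋).card : ℝ) * ((Icc (-⌊X ^ 3⌋) ⌊X ^ 3⌋).card : ℝ) := by
    have := card_le_card hsub
    rw [card_product] at this
    exact_mod_cast this
  calc (F.card : ℝ) ≤ _ := h3
    _ ≤ (3 * X ^ 2) * (3 * X ^ 3) := by gcongr
    _ = _ := by ring

theorem up_pow (hU : S_UP) (lam e : ℝ) (h0 : 0 < lam) (h1 : lam < 1 / 6) (he : 0 < e) :
    ∃ X₀ : ℝ, 3 < X₀ ∧ ∀ (X : ℝ) (F : Finset (ℤ × ℤ)), X₀ ≤ X →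
    (∀ x ∈ F, Mn x.1 x.2 ∧ |(x.1 : ℝ)| ≤ X ^ 2 ∧ |(x.2 : ℝ)| ≤ X ^ 3 ∧
      (Nc x.1 x.2 : ℝ) * |((Dd x.1 x.2 : ℤ) : ℝ)| ^ lam ≤ |((Dd x.1 x.2 : ℤ) : ℝ)|) →
    (F.card : ℝ) ≤ X ^ (5 - 6 * lam + e) := by
  obtain ⟨X₁, hX₁, h⟩ := hU lam 1 h0 h1 one_pos
  refine ⟨max X₁ (Real.exp (max (Real.exp 1) (64 / e ^ 2))), lt_of_lt_of_le hX₁ (le_max_left _ _), ?_⟩
  intro X F hX hF
  have hX1 : X₁ ≤ X := (le_max_left _ _).trans hX
  have hXp : 0 < X := by linarith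
  have hL : max (Real.exp 1) (64 / e ^ 2) ≤ Real.log X := by
    rw [Real.le_log_iff_exp_le hXp]
    exact (le_max_right _ _).trans hX
  have hL1 : Real.exp 1 ≤ Real.log X := (le_max_left _ _).trans hL
  have hL2 : 64 / e ^ 2 ≤ Real.log X := (le_max_right _ _).trans hL
  have hLp : 0 < Real.log X := lt_of_lt_of_le (Real.exp_pos 1) hL1
  have hLL : 1 ≤ Real.log (Real.log X) := by
    rw [Real.le_log_iff_exp_le hLp]; exact hL1
  refine (h X F hX1 hF).trans ?_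
  rw [Real.rpow_def_of_pos hXp]
  apply Real.exp_le_exp.2
  have h2 : √(96 * lam * Real.log X / Real.log (Real.log X)) ≤ 4 * √(Real.log X) := by
    rw [show (4 : ℝ) * √(Real.log X) = √(16 * Real.log X) by
      rw [Real.sqrt_mul (by norm_num), show (16 : ℝ) = 4 ^ 2 by norm_num, Real.sqrt_sq (by norm_num)]]
    apply Real.sqrt_le_sqrt
    rw [div_le_iff₀ (by linarith)]
    have : 96 * lam ≤ 16 := by linarith
    nlinarith
  have h3 : 8 * √(Real.log X) ≤ e * Real.log X := by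
    have h4 : √(Real.log X) * √(Real.log X) = Real.log X := Real.mul_self_sqrt hLp.le
    have h5 : 8 / e ≤ √(Real.log X) := by
      apply Real.le_sqrt_of_sq_le
      rw [div_pow]; norm_num; exact hL2
    have h6 : 8 ≤ e * √(Real.log X) := by
      rw [div_le_iff₀ he] at h5; linarith
    have h7 := Real.sqrt_nonneg (Real.log X)
    calc 8 * √(Real.log X) ≤ (e * √(Real.log X)) * √(Real.log X) := by gcongr
      _ = e * Real.log X := by rw [mul_assoc, h4]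
  nlinarith

theorem big (hU : S_UP) (ε : ℝ) (hε : 0 < ε) (hε1 : ε ≤ 1) : ∃ C : ℝ, 0 < C ∧
    ∀ (X K : ℝ) (F : Finset (ℤ × ℤ)), 1 ≤ X → X ^ ((1 : ℝ) / 4) ≤ K →
    (∀ x ∈ F, Mn x.1 x.2 ∧ |(x.1 : ℝ)| ≤ X ^ 2 ∧ |(x.2 : ℝ)| ≤ X ^ 3 ∧
      K * (Nc x.1 x.2 : ℝ) ≤ |((Dd x.1 x.2 : ℤ) : ℝ)|) →
    (F.card : ℝ) ≤ C * X ^ 5 * (K ^ (-1 + ε) + X ^ (-1 + ε)) := by
  classical
  obtain ⟨N, hN⟩ : ∃ N : ℕ, N = ⌈64 / ε⌉₊ := ⟨_, rfl⟩
  have hNε : 64 / ε ≤ N := by rw [hN]; exact Nat.le_ceil _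
  have hN64 : (64 : ℝ) ≤ N := by
    refine le_trans ?_ hNε
    rw [le_div_iff₀ hε]; linarith
  have hN0 : (0 : ℝ) < N := by linarith
  have hNN : 64 ≤ N := by exact_mod_cast hN64
  have hinv : 1 / (N : ℝ) ≤ ε / 64 := by
    rw [div_le_div_iff₀ hN0 (by norm_num)]
    rw [div_le_iff₀ hε] at hNε
    linarith
  have hev : ∀ᶠ X : ℝ in atTop, ∀ i ∈ range N, 1 ≤ i → ∀ F : Finset (ℤ × ℤ),
      (∀ x ∈ F, Mn x.1 x.2 ∧ |(x.1 : ℝ)| ≤ X ^ 2 ∧ |(x.2 : ℝ)| ≤ X ^ 3 ∧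
      (Nc x.1 x.2 : ℝ) * |((Dd x.1 x.2 : ℤ) : ℝ)| ^ ((i : ℝ) / (6 * N)) ≤ |((Dd x.1 x.2 : ℤ) : ℝ)|) →
      (F.card : ℝ) ≤ X ^ (5 - 6 * ((i : ℝ) / (6 * N)) + ε / 16) := by
    rw [Filter.eventually_all_finset]
    intro i hi
    rcases Nat.eq_zero_or_pos i with h0 | h0
    · filter_upwards with X hX
      omega
    have hi' : (i : ℝ) < N := by exact_mod_cast mem_range.1 hi
    have hi0 : (0 : ℝ) < i := by exact_mod_cast h0
    obtain ⟨X₀, -, h⟩ := up_pow hU ((i : ℝ) / (6 * N)) (ε / 16) (by positivity)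
      (by rw [div_lt_div_iff₀ (by positivity) (by norm_num)]; linarith) (by positivity)
    filter_upwards [eventually_ge_atTop X₀] with X hX _ F hF
    exact h X F hX hF
  obtain ⟨X₀, hX₀⟩ := eventually_atTop.1 hev
  obtain ⟨X₁, hX₁⟩ : ∃ X₁ : ℝ, X₁ = max X₀ 31 := ⟨_, rfl⟩
  refine ⟨9 * X₁ + 3, ?_, ?_⟩
  · have : 31 ≤ X₁ := by rw [hX₁]; exact le_max_right _ _
    linarith
  intro X K F hX hK hF
  have hXp : 0 < X := by linarith
  have hX5 : 0 < X ^ 5 := by positivity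
  have hKp : 0 < K := lt_of_lt_of_le (by positivity) hK
  have hKe : 0 < K ^ (-1 + ε) := by positivity
  have hXe : 0 < X ^ (-1 + ε) := by positivity
  have h31 : 31 ≤ X₁ := by rw [hX₁]; exact le_max_right _ _
  rcases lt_or_ge X X₁ with hlt | hge
  · have h1 := box_card hX F (fun x hx => ⟨(hF x hx).2.1, (hF x hx).2.2.1⟩)
    have h2 : 1 ≤ X₁ * X ^ (-1 + ε) := by
      have h3 : X ^ (-1 : ℝ) ≤ X ^ (-1 + ε) := Real.rpow_le_rpow_of_exponent_le hX (by linarith)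
      rw [Real.rpow_neg_one] at h3
      calc (1 : ℝ) = X * X⁻¹ := by field_simp
        _ ≤ X₁ * X ^ (-1 + ε) := by gcongr
    calc (F.card : ℝ) ≤ 9 * X ^ 5 * 1 := by linarith
      _ ≤ 9 * X ^ 5 * (X₁ * X ^ (-1 + ε)) := by gcongr
      _ = 9 * X₁ * X ^ 5 * X ^ (-1 + ε) := by ring
      _ ≤ (9 * X₁ + 3) * X ^ 5 * (K ^ (-1 + ε) + X ^ (-1 + ε)) := by
          gcongr
          · linarith
          · linarith
  · have hXX₀ : X₀ ≤ X := by rw [hX₁] at hge; exact (le_max_left _ _).trans hge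
    have hX31 : 31 ≤ X := h31.trans hge
    obtain ⟨x, hx⟩ : ∃ x : ℝ, x = Real.log X := ⟨_, rfl⟩
    obtain ⟨k, hk⟩ : ∃ k : ℝ, k = Real.log K := ⟨_, rfl⟩
    obtain ⟨l, hl⟩ : ∃ l : ℝ, l = Real.log 31 := ⟨_, rfl⟩
    have hl0 : 0 < l := by rw [hl]; exact Real.log_pos (by norm_num)
    have hlx : l ≤ x := by rw [hl, hx]; exact Real.log_le_log (by norm_num) hX31
    have hl6 : l < 6 := by
      rw [hl, Real.log_lt_iff_lt_exp (by norm_num)]
      have := Real.add_one_lt_exp (x := 3) (by norm_num)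
      have h2 : Real.exp 6 = Real.exp 3 * Real.exp 3 := by rw [← Real.exp_add]; norm_num
      have h3 : (1 : ℝ) + 3 + 3 ^ 2 / 2 ≤ Real.exp 3 := Real.quadratic_le_exp_of_nonneg (by norm_num)
      nlinarith
    have hx0 : 0 < x := by linarith
    have hkx : x / 4 ≤ k := by
      rw [hk, hx, Real.le_log_iff_exp_le hKp]
      refine le_trans (le_of_eq ?_) hK
      rw [Real.rpow_def_of_pos hXp]
      congr 1; ring
    have hk0 : 0 < k := by linarith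
    obtain ⟨D, hD⟩ : ∃ D : ℝ, D = l + 6 * x := ⟨_, rfl⟩
    have hD0 : 0 < D := by rw [hD]; linarith
    have hlogD : Real.log (31 * X ^ 6) = D := by
      rw [Real.log_mul (by norm_num) (by positivity), Real.log_pow, hD, hl, hx]
      push_cast; ring
    obtain ⟨q, hq⟩ : ∃ q : ℝ, q = k * (6 * N) / D := ⟨_, rfl⟩
    have hq0 : 0 < q := by rw [hq]; positivity
    have hq1 : 1 ≤ q := by
      rw [hq, le_div_iff₀ hD0, hD]
      have : x / 4 * (6 * 64) ≤ k * (6 * N) := by gcongr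
      linarith
    obtain ⟨i, hi⟩ : ∃ i : ℕ, i = min ⌊q⌋₊ (N - 1) := ⟨_, rfl⟩
    have hi1 : 1 ≤ i := by
      rw [hi]
      refine le_min ?_ (by omega)
      exact (Nat.one_le_floor_iff q).2 hq1
    have hiN : i < N := by
      rw [hi]
      exact lt_of_le_of_lt (min_le_right _ _) (by omega)
    have hiq : (i : ℝ) ≤ q := by
      refine le_trans ?_ (Nat.floor_le hq0.le)
      exact_mod_cast (by rw [hi]; exact min_le_left _ _)
    have hi0 : (0 : ℝ) < i := by exact_mod_cast hi1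
    have hlam0 : 0 < (i : ℝ) / (6 * N) := by positivity
    have hcond : ∀ y ∈ F, Mn y.1 y.2 ∧ |(y.1 : ℝ)| ≤ X ^ 2 ∧ |(y.2 : ℝ)| ≤ X ^ 3 ∧
        (Nc y.1 y.2 : ℝ) * |((Dd y.1 y.2 : ℤ) : ℝ)| ^ ((i : ℝ) / (6 * N)) ≤
          |((Dd y.1 y.2 : ℤ) : ℝ)| := by
      intro y hy
      obtain ⟨y1, y2, y3, y4⟩ := hF y hy
      refine ⟨y1, y2, y3, le_trans ?_ y4⟩
      rw [mul_comm]
      have h5 : |((Dd y.1 y.2 : ℤ) : ℝ)| ^ ((i : ℝ) / (6 * N)) ≤ K := by
        calc |((Dd y.1 y.2 : ℤ) : ℝ)| ^ ((i : ℝ) / (6 * N)) ≤ (31 * X ^ 6) ^ ((i : ℝ) / (6 * N)) :=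
              Real.rpow_le_rpow (abs_nonneg _) (disc_le y2 y3) hlam0.le
          _ ≤ K := by
              rw [Real.rpow_def_of_pos (by positivity), hlogD, ← Real.le_log_iff_exp_le hKp, ← hk]
              calc D * ((i : ℝ) / (6 * N)) ≤ D * (q / (6 * N)) := by gcongr
                _ = k := by rw [hq]; field_simp
      gcongr
    have hcard := hX₀ X hXX₀ i (mem_range.2 hiN) hi1 F hcond
    rw [Real.rpow_def_of_pos hXp, ← hx] at hcard
    have hNx : x / N ≤ ε / 64 * x := by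
      calc x / N = 1 / N * x := by ring
        _ ≤ ε / 64 * x := by gcongr
    have e6 : 6 * ((i : ℝ) / (6 * N)) = i / N := by field_simp
    rw [e6] at hcard
    have hX5e : X ^ 5 = Real.exp (5 * x) := by
      rw [hx, mul_comm, ← Real.rpow_def_of_pos hXp]; norm_cast
    have hKr : K ^ (-1 + ε) = Real.exp (k * (-1 + ε)) := by
      rw [hk, Real.rpow_def_of_pos hKp]
    have hXr : X ^ (-1 + ε) = Real.exp (x * (-1 + ε)) := by
      rw [hx, Real.rpow_def_of_pos hXp]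
    rcases lt_or_ge q N with hqN | hqN
    · have hfl : i = ⌊q⌋₊ := by
        rw [hi]
        refine min_eq_left ?_
        have : ⌊q⌋₊ < N := (Nat.floor_lt hq0.le).2 hqN
        omega
      have hqi : q < i + 1 := by rw [hfl]; exact Nat.lt_floor_add_one q
      have h6k : 6 * k < D := by
        rw [hq, div_lt_iff₀ hD0] at hqN
        nlinarith
      have hkey : x * (5 - i / N + ε / 16) ≤ 5 * x + k * (-1 + ε) + 1 := by
        have h7 : q / N < i / N + 1 / N := by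
          rw [← add_div]; gcongr
        have h8 : q / N = 6 * k / D := by rw [hq]; field_simp
        have h9 : 6 * k / D * x = k - k * l / D := by
          rw [hD]; rw [hD] at hD0; field_simp; ring
        have h10 : k * l / D ≤ 1 := by
          rw [div_le_one hD0]; nlinarith
        have h11 : 6 * k / D * x ≤ (i / N + 1 / N) * x := by
          rw [h8] at h7; gcongr
        have h12 : (1 / (N : ℝ)) * x ≤ ε / 64 * x := by gcongr
        have h14 : ε * x ≤ ε * (4 * k) := by gcongr; linarith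
        have h15 : x * (5 - i / N + ε / 16) = 5 * x - i / N * x + ε * x / 16 := by ring
        have h16 : (i / N + 1 / N) * x = i / N * x + 1 / N * x := by ring
        have h17 : k * (-1 + ε) = -k + ε * k := by ring
        rw [h15, h17]
        rw [h16, h9] at h11
        have h18 : ε / 64 * x = ε * x / 64 := by ring
        rw [h18] at h12
        have h19 : 0 < ε * k := by positivity
        linarith
      have h13 : (F.card : ℝ) ≤ 3 * (X ^ 5 * K ^ (-1 + ε)) := by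
        refine hcard.trans ?_
        rw [hX5e, hKr, ← Real.exp_add]
        calc Real.exp (x * (5 - i / N + ε / 16)) ≤ Real.exp (5 * x + k * (-1 + ε) + 1) :=
              Real.exp_le_exp.2 hkey
          _ = Real.exp 1 * Real.exp (5 * x + k * (-1 + ε)) := by rw [← Real.exp_add]; ring_nf
          _ ≤ 3 * Real.exp (5 * x + k * (-1 + ε)) := by
              gcongr
              exact Real.exp_one_lt_d9.le.trans (by norm_num)
      calc (F.card : ℝ) ≤ 3 * (X ^ 5 * K ^ (-1 + ε)) := h13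
        _ = 3 * X ^ 5 * K ^ (-1 + ε) := by ring
        _ ≤ (9 * X₁ + 3) * X ^ 5 * (K ^ (-1 + ε) + X ^ (-1 + ε)) := by
            gcongr
            · linarith
            · linarith
    · have hfl : i = N - 1 := by
        rw [hi]
        refine min_eq_right ?_
        have : N ≤ ⌊q⌋₊ := Nat.le_floor hqN
        omega
      have hiR : (i : ℝ) = N - 1 := by
        rw [hfl, Nat.cast_sub (by omega)]; norm_num
      have hkey : x * (5 - i / N + ε / 16) ≤ 5 * x + x * (-1 + ε) := by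
        have h7 : (i : ℝ) / N = 1 - 1 / N := by rw [hiR]; field_simp
        rw [h7]
        have h12 : (1 / (N : ℝ)) * x ≤ ε / 64 * x := by gcongr
        have h15 : x * (5 - (1 - 1 / N) + ε / 16) = 4 * x + 1 / N * x + ε * x / 16 := by ring
        have h17 : x * (-1 + ε) = -x + ε * x := by ring
        rw [h15, h17]
        have h18 : ε / 64 * x = ε * x / 64 := by ring
        rw [h18] at h12
        have h19 : 0 < ε * x := by positivity
        linarith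
      have h13 : (F.card : ℝ) ≤ X ^ 5 * X ^ (-1 + ε) := by
        refine hcard.trans ?_
        rw [hX5e, hXr, ← Real.exp_add]
        exact Real.exp_le_exp.2 hkey
      calc (F.card : ℝ) ≤ X ^ 5 * X ^ (-1 + ε) := h13
        _ = 1 * X ^ 5 * X ^ (-1 + ε) := by ring
        _ ≤ (9 * X₁ + 3) * X ^ 5 * (K ^ (-1 + ε) + X ^ (-1 + ε)) := by
            gcongr
            · linarith
            · linarith

end Pool.Agent.U73.SZ
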