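import Pool.Agent.U73.SZ.Tail
import Pool.Agent.N232.SZ_LO

set_option autoImplicit false

/-!
# The tail of `|D| / N₆` over all minimal models, uniformly, part 2 (helper73)
-/

namespace Pool.Agent.U73.SZ

open Finset Filter Topology
open Pool.Agent.N906.SZ

theorem cc_le (n : ℕ) : cc n ≤ rd n := by
  unfold cc rd
  apply Finset.prod_le_prod'
  intro p hp
  have h5 : 5 ≤ p := (mem_filter.1 hp).2
  split_ifs <;> omega

theorem rd_le {n : ℕ} (hn : 1 ≤ n) : rd n ≤ n := by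
  refine le_trans ?_ (Nat.le_of_dvd hn (Nat.prod_primeFactors_dvd n))
  unfold rd
  apply Finset.prod_le_prod_of_subset_of_one_le' (filter_subset _ _)
  intro p hp _
  exact (Nat.prime_of_mem_primeFactors hp).one_lt.le

theorem gsum (hG : S_GENU) (ε : ℝ) (hε : 0 < ε) (hε1 : ε ≤ 1) : ∃ C : ℝ, 0 < C ∧
    ∀ (K : ℝ) (F : Finset ℕ), 1 ≤ K → (∀ n ∈ F, K ≤ (n : ℝ)) →
    ∑ n ∈ F, (cc n : ℝ) / (n * rd n : ℕ) ≤ C * K ^ (-1 + ε) := by
  obtain ⟨u₀, hu0, hu1, h⟩ := hG 1 one_pos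
  obtain ⟨u, hu⟩ : ∃ u : ℝ, u = min ε (u₀ / 2) := ⟨_, rfl⟩
  have hup : 0 < u := by rw [hu]; exact lt_min hε (by linarith)
  have huε : u ≤ ε := by rw [hu]; exact min_le_left _ _
  have huu : u < u₀ := by
    have : u ≤ u₀ / 2 := by rw [hu]; exact min_le_right _ _
    linarith
  refine ⟨_, Real.exp_pos ((1 + 1) * 2 / (u * Real.log (1 / u))), ?_⟩
  intro K F hK hF
  have hKp : 0 < K := by linarith
  have hn1 : ∀ n ∈ F, 1 ≤ n := by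
    intro n hn
    have := hF n hn
    have h2 : (1 : ℝ) ≤ n := by linarith
    exact_mod_cast h2
  have h1 := h u hup huu F hn1
  have h2 : ∀ n ∈ F, (cc n : ℝ) / (n * rd n : ℕ) ≤ K ^ (-1 + u) * ((cc n : ℝ) * (n : ℝ) ^ (-u) / rd n) := by
    intro n hn
    have hnK := hF n hn
    have hnp : (0 : ℝ) < n := by linarith
    have hrd : (0 : ℝ) < rd n := by exact_mod_cast rd_pos n
    have e1 : (cc n : ℝ) / (n * rd n : ℕ) = (n : ℝ) ^ (-1 + u) * ((cc n : ℝ) * (n : ℝ) ^ (-u) / rd n) := by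
      have e2 : (n : ℝ) ^ (-1 + u) * (n : ℝ) ^ (-u) = (n : ℝ)⁻¹ := by
        rw [← Real.rpow_add hnp]
        norm_num
        rw [Real.rpow_neg_one]
      push_cast
      calc (cc n : ℝ) / (n * rd n) = (n : ℝ)⁻¹ * (cc n / rd n) := by field_simp
        _ = _ := by rw [← e2]; ring
    rw [e1]
    apply mul_le_mul_of_nonneg_right _ (by positivity)
    exact Real.rpow_le_rpow_of_nonpos hKp hnK (by linarith)
  calc ∑ n ∈ F, (cc n : ℝ) / (n * rd n : ℕ)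
      ≤ ∑ n ∈ F, K ^ (-1 + u) * ((cc n : ℝ) * (n : ℝ) ^ (-u) / rd n) := Finset.sum_le_sum h2
    _ = K ^ (-1 + u) * ∑ n ∈ F, ((cc n : ℝ) * (n : ℝ) ^ (-u) / rd n) := by rw [mul_sum]
    _ ≤ K ^ (-1 + ε) * Real.exp ((1 + 1) * 2 / (u * Real.log (1 / u))) := by
        gcongr
    _ = _ := by ring

/-- pairs with a given small divisor -/
theorem small (hG : S_GENU) (hC : S_CNT) (ε : ℝ) (hε : 0 < ε) (hε1 : ε ≤ 1) : ∃ C : ℝ, 0 < C ∧
    ∀ (X K : ℝ) (F : Finset (ℤ × ℤ)), 1 ≤ X → 1 ≤ K →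
    (∀ x ∈ F, Mn x.1 x.2 ∧ |(x.1 : ℝ)| ≤ X ^ 2 ∧ |(x.2 : ℝ)| ≤ X ^ 3 ∧
      ∃ n : ℕ, K ≤ (n : ℝ) ∧ (n : ℝ) ≤ X ^ ((1 : ℝ) / 4) ∧ Cn n x.1 x.2) →
    (F.card : ℝ) ≤ C * (X ^ 5 * K ^ (-1 + ε) + X ^ 3) := by
  classical
  obtain ⟨C₁, hC₁, h1⟩ := gsum hG ε hε hε1
  obtain ⟨C₂, hC₂, h2⟩ := hC
  refine ⟨C₂ * (31 * C₁ + 1), by positivity, ?_⟩
  intro X K F hX hK hF
  have hXp : 0 < X := by linarith
  obtain ⟨Z, hZ⟩ : ∃ Z : ℝ, Z = X ^ ((1 : ℝ) / 4) := ⟨_, rfl⟩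
  have hZ1 : 1 ≤ Z := by rw [hZ]; exact Real.one_le_rpow hX (by norm_num)
  have hZX : Z ^ 4 = X := by
    rw [hZ, ← Real.rpow_natCast, ← Real.rpow_mul hXp.le]; norm_num
  obtain ⟨S, hS⟩ : ∃ S : Finset ℕ, S = (Icc 1 ⌊Z⌋₊).filter (fun n : ℕ => K ≤ (n : ℝ)) := ⟨_, rfl⟩
  have hSm : ∀ n ∈ S, 1 ≤ n ∧ (n : ℝ) ≤ Z ∧ K ≤ (n : ℝ) := by
    intro n hn
    rw [hS, mem_filter, mem_Icc] at hn
    exact ⟨hn.1.1, (Nat.le_floor_iff (by linarith)).1 hn.1.2, hn.2⟩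
  have hsub : F ⊆ S.biUnion (fun n => F.filter (fun x => Cn n x.1 x.2)) := by
    intro x hx
    obtain ⟨-, -, -, n, n1, n2, n3⟩ := hF x hx
    rw [mem_biUnion]
    refine ⟨n, ?_, mem_filter.2 ⟨hx, n3⟩⟩
    rw [hS, mem_filter, mem_Icc]
    refine ⟨⟨?_, Nat.le_floor (by rw [hZ]; exact n2)⟩, n1⟩
    have : (1 : ℝ) ≤ n := hK.trans n1
    exact_mod_cast this
  have hbound : ∀ n ∈ S, ((F.filter (fun x => Cn n x.1 x.2)).card : ℝ) ≤
      C₂ * cc n * (31 * X ^ 5 / (n * rd n : ℕ) + X ^ 2) := by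
    intro n hn
    obtain ⟨n1, n2, n3⟩ := hSm n hn
    have hY : 1 ≤ 31 * X ^ 6 := by
      have : 1 ≤ X ^ 6 := one_le_pow₀ hX
      linarith
    have hn0 : (0 : ℝ) < n := by linarith
    have hrdn : ((n * rd n : ℕ) : ℝ) ≤ Z ^ 2 := by
      push_cast
      have h3 : ((rd n : ℕ) : ℝ) ≤ n := by exact_mod_cast rd_le n1
      calc (n : ℝ) * rd n ≤ n * n := by gcongr
        _ ≤ Z * Z := by gcongr
        _ = Z ^ 2 := by ring
    have h4 : ((n * rd n : ℕ) : ℝ) ^ 3 ≤ 31 * X ^ 6 := by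
      calc ((n * rd n : ℕ) : ℝ) ^ 3 ≤ (Z ^ 2) ^ 3 := by gcongr
        _ = Z ^ 6 := by ring
        _ ≤ Z ^ 24 := pow_le_pow_right₀ hZ1 (by norm_num)
        _ = 1 * X ^ 6 := by rw [← hZX]; ring
        _ ≤ 31 * X ^ 6 := by gcongr; norm_num
    have h5 := h2 X (31 * X ^ 6) n hX hY le_rfl n1 h4 (F.filter (fun x => Cn n x.1 x.2)) (by
      intro x hx
      obtain ⟨hx1, hx2⟩ := mem_filter.1 hx
      obtain ⟨y1, y2, y3, -⟩ := hF x hx1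
      exact ⟨y1, y2, disc_le y2 y3, hx2⟩)
    refine h5.trans ?_
    have h6 : (31 * X ^ 6) ^ (5 / 6 : ℝ) ≤ 31 * X ^ 5 := by
      rw [Real.mul_rpow (by norm_num) (by positivity), ← Real.rpow_natCast, ← Real.rpow_mul hXp.le]
      have e1 : X ^ (((6 : ℕ) : ℝ) * (5 / 6)) = X ^ 5 := by
        rw [← Real.rpow_natCast]; norm_num
      rw [e1]
      have e2 : (31 : ℝ) ^ (5 / 6 : ℝ) ≤ 31 := by
        calc (31 : ℝ) ^ (5 / 6 : ℝ) ≤ 31 ^ (1 : ℝ) :=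
              Real.rpow_le_rpow_of_exponent_le (by norm_num) (by norm_num)
          _ = 31 := Real.rpow_one _
      gcongr
    gcongr
  have hX2Z : (∑ n ∈ S, (cc n : ℝ)) * X ^ 2 ≤ X ^ 3 := by
    have h3 : ∑ n ∈ S, (cc n : ℝ) ≤ Z * Z := by
      calc ∑ n ∈ S, (cc n : ℝ) ≤ ∑ n ∈ S, Z := by
            apply Finset.sum_le_sum
            intro n hn
            obtain ⟨n1, n2, n3⟩ := hSm n hn
            refine le_trans ?_ n2
            exact_mod_cast (cc_le n).trans (rd_le n1)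
        _ = S.card * Z := by rw [sum_const, nsmul_eq_mul]
        _ ≤ Z * Z := by
            have : (S.card : ℝ) ≤ Z := by
              have h4 : S.card ≤ ⌊Z⌋₊ := by
                rw [hS]
                refine (card_filter_le _ _).trans ?_
                rw [Nat.card_Icc]; omega
              calc (S.card : ℝ) ≤ (⌊Z⌋₊ : ℝ) := by exact_mod_cast h4
                _ ≤ Z := Nat.floor_le (by linarith)
            gcongr
    calc (∑ n ∈ S, (cc n : ℝ)) * X ^ 2 ≤ (Z * Z) * X ^ 2 := by gcongr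
      _ = Z ^ 2 * X ^ 2 := by ring
      _ ≤ Z ^ 4 * X ^ 2 := by
          have : Z ^ 2 ≤ Z ^ 4 := pow_le_pow_right₀ hZ1 (by norm_num)
          gcongr
      _ = X ^ 3 := by rw [hZX]; ring
  calc (F.card : ℝ) ≤ ((S.biUnion (fun n => F.filter (fun x => Cn n x.1 x.2))).card : ℝ) := by
        exact_mod_cast card_le_card hsub
    _ ≤ ∑ n ∈ S, ((F.filter (fun x => Cn n x.1 x.2)).card : ℝ) := by
        exact_mod_cast card_biUnion_le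
    _ ≤ ∑ n ∈ S, C₂ * cc n * (31 * X ^ 5 / (n * rd n : ℕ) + X ^ 2) := Finset.sum_le_sum hbound
    _ = C₂ * (31 * X ^ 5 * ∑ n ∈ S, (cc n : ℝ) / (n * rd n : ℕ) + (∑ n ∈ S, (cc n : ℝ)) * X ^ 2) := by
        rw [mul_sum, sum_mul, ← sum_add_distrib, mul_sum]
        refine Finset.sum_congr rfl fun n _ => ?_
        ring
    _ ≤ C₂ * (31 * X ^ 5 * (C₁ * K ^ (-1 + ε)) + X ^ 3) := by
        gcongr
        exact h1 K S hK (fun n hn => (hSm n hn).2.2)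
    _ = C₂ * (31 * C₁) * (X ^ 5 * K ^ (-1 + ε)) + C₂ * X ^ 3 := by ring
    _ ≤ C₂ * (31 * C₁ + 1) * (X ^ 5 * K ^ (-1 + ε)) + C₂ * (31 * C₁ + 1) * X ^ 3 := by
        have hKe : 0 < K ^ (-1 + ε) := Real.rpow_pos_of_pos (by linarith) _
        gcongr
        · linarith
        · nlinarith
    _ = _ := by ring

/-- **The upper bound for the tail.** -/
theorem tail_up (hGa : S_GAIN) (hU : S_UP) (hG : S_GENU) (hC : S_CNT) (ε : ℝ) (hε : 0 < ε)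
    (hε1 : ε ≤ 1) : ∃ C : ℝ, 0 < C ∧ ∀ (X K : ℝ) (F : Finset (ℤ × ℤ)), 1 ≤ X → 1 ≤ K →
    (∀ x ∈ F, Mn x.1 x.2 ∧ |(x.1 : ℝ)| ≤ X ^ 2 ∧ |(x.2 : ℝ)| ≤ X ^ 3 ∧
      K * (Nc x.1 x.2 : ℝ) ≤ |((Dd x.1 x.2 : ℤ) : ℝ)|) →
    (F.card : ℝ) ≤ C * X ^ 5 * (K ^ (-1 + ε) + X ^ (-1 + ε)) := by
  classical
  obtain ⟨C₁, hC₁, h1⟩ := big hU ε hε hε1
  obtain ⟨C₂, hC₂, h2⟩ := small hG hC ε hε hε1
  refine ⟨C₁ + C₂, by positivity, ?_⟩
  intro X K F hX hK hF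
  have hXp : 0 < X := by linarith
  have hKp : 0 < K := by linarith
  obtain ⟨Z, hZ⟩ : ∃ Z : ℝ, Z = X ^ ((1 : ℝ) / 4) := ⟨_, rfl⟩
  have hZ1 : 1 ≤ Z := by rw [hZ]; exact Real.one_le_rpow hX (by norm_num)
  obtain ⟨F₁, hF₁⟩ : ∃ F₁ : Finset (ℤ × ℤ), F₁ = F.filter (fun x =>
    |((Dd x.1 x.2 : ℤ) : ℝ)| < Z * (Nc x.1 x.2 : ℝ)) := ⟨_, rfl⟩
  obtain ⟨F₂, hF₂⟩ : ∃ F₂ : Finset (ℤ × ℤ), F₂ = F.filter (fun x =>
    ¬ |((Dd x.1 x.2 : ℤ) : ℝ)| < Z * (Nc x.1 x.2 : ℝ)) := ⟨_, rfl⟩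
  have hcard : (F.card : ℝ) = F₁.card + F₂.card := by
    rw [hF₁, hF₂]
    exact_mod_cast (card_filter_add_card_filter_not (s := F) _).symm
  have hKe : 0 < K ^ (-1 + ε) := Real.rpow_pos_of_pos (by linarith) _
  have hXe : 0 < X ^ (-1 + ε) := Real.rpow_pos_of_pos (by linarith) _
  have hb2 : (F₂.card : ℝ) ≤ C₁ * X ^ 5 * (K ^ (-1 + ε) + X ^ (-1 + ε)) := by
    have h3 := h1 X (max K Z) F₂ hX (by rw [← hZ]; exact le_max_right _ _) (by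
      intro x hx
      rw [hF₂, mem_filter] at hx
      obtain ⟨y1, y2, y3, y4⟩ := hF x hx.1
      refine ⟨y1, y2, y3, ?_⟩
      have hN : (0 : ℝ) ≤ Nc x.1 x.2 := Nat.cast_nonneg _
      rcases le_total K Z with h | h
      · rw [max_eq_right h]; exact not_lt.1 hx.2
      · rw [max_eq_left h]; exact y4)
    refine h3.trans ?_
    have h4 : (max K Z) ^ (-1 + ε) ≤ K ^ (-1 + ε) :=
      Real.rpow_le_rpow_of_nonpos hKp (le_max_left _ _) (by linarith)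
    gcongr
  have hb1 : (F₁.card : ℝ) ≤ C₂ * X ^ 5 * (K ^ (-1 + ε) + X ^ (-1 + ε)) := by
    have h3 := h2 X K F₁ hX hK (by
      intro x hx
      rw [hF₁, mem_filter] at hx
      obtain ⟨y1, y2, y3, y4⟩ := hF x hx.1
      refine ⟨y1, y2, y3, ?_⟩
      obtain ⟨n, n1, n2, n3⟩ := hGa x.1 x.2 y1.1
      have hD : |((Dd x.1 x.2 : ℤ) : ℝ)| = n * (Nc x.1 x.2 : ℝ) := by
        rw [← Int.cast_abs, Int.abs_eq_natAbs, n3]; push_cast; ring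
      have hN : (0 : ℝ) < Nc x.1 x.2 := by
        have h5 : Nc x.1 x.2 ≠ 0 := by
          intro h0
          rw [h0, mul_zero] at n3
          exact y1.1 (Int.natAbs_eq_zero.1 n3)
        exact_mod_cast Nat.pos_of_ne_zero h5
      refine ⟨n, ?_, ?_, n2⟩
      · rw [hD] at y4
        exact le_of_mul_le_mul_right y4 hN
      · have h6 := hx.2
        rw [hD] at h6
        rw [← hZ]
        exact (lt_of_mul_lt_mul_right h6 hN.le).le)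
    refine h3.trans ?_
    have h4 : X ^ 3 ≤ X ^ 5 * X ^ (-1 + ε) := by
      have e1 : X ^ 5 * X ^ (-1 + ε) = X ^ (4 + ε) := by
        rw [← Real.rpow_natCast, ← Real.rpow_add hXp]; congr 1; push_cast; ring
      rw [e1, ← Real.rpow_natCast]
      exact Real.rpow_le_rpow_of_exponent_le hX (by push_cast; linarith)
    calc C₂ * (X ^ 5 * K ^ (-1 + ε) + X ^ 3) ≤ C₂ * (X ^ 5 * K ^ (-1 + ε) + X ^ 5 * X ^ (-1 + ε)) := by
          gcongr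
      _ = _ := by ring
  rw [hcard]
  calc (F₁.card : ℝ) + F₂.card ≤ _ := add_le_add hb1 hb2
    _ = _ := by ring

/-- **The lower bound for the tail.** -/
theorem tail_lo (hGa : S_GAIN) (hL : S_LOWQ) : ∃ c X₀ : ℝ, 0 < c ∧ 1 < X₀ ∧
    ∀ X K : ℝ, X₀ ≤ X → 1 ≤ K → K ≤ X → ∃ F : Finset (ℤ × ℤ),
    (∀ x ∈ F, Mn x.1 x.2 ∧ |(x.1 : ℝ)| ≤ X ^ 2 ∧ |(x.2 : ℝ)| ≤ X ^ 3 ∧
      K * (Nc x.1 x.2 : ℝ) ≤ |((Dd x.1 x.2 : ℤ) : ℝ)|) ∧ c * X ^ 5 / K ≤ (F.card : ℝ) := by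
  obtain ⟨c₁, c, C₀, hc₁, hc, hC₀, h⟩ := hL
  refine ⟨c / 5, max C₀ (25 ^ 3), by positivity, lt_of_lt_of_le (by norm_num) (le_max_right _ _), ?_⟩
  intro X K hX hK hKX
  have hXC : C₀ ≤ X := (le_max_left _ _).trans hX
  have hX25 : (25 : ℝ) ^ 3 ≤ X := (le_max_right _ _).trans hX
  have hX1 : 1 ≤ X := by
    have : (1 : ℝ) ≤ 25 ^ 3 := by norm_num
    linarith
  have hXp : 0 < X := by linarith
  obtain ⟨m, hm1, hm2⟩ := exists_nat_pow_near hK (by norm_num : (1 : ℝ) < 5)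
  have hrd : rd 1 = 1 := by unfold rd; simp
  have hX13 : (25 : ℝ) ≤ X ^ (1 / 3 : ℝ) := by
    have h1 : (25 : ℝ) = ((25 : ℝ) ^ 3) ^ (1 / 3 : ℝ) := by
      rw [← Real.rpow_natCast, ← Real.rpow_mul (by norm_num)]; norm_num
    rw [h1]
    exact Real.rpow_le_rpow (by norm_num) hX25 (by norm_num)
  obtain ⟨F, hF1, hF2⟩ := h X C₀ 0 (m + 1) 1 1 le_rfl le_rfl (by norm_num) le_rfl (by simp) (by simp)
    (by simp; exact hc₁.le) (by rw [hrd]; simpa using hXC)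
    (by
      rw [hrd]
      norm_num
      have e1 : X ^ (4 / 3 : ℝ) = X * X ^ (1 / 3 : ℝ) := by
        rw [← Real.rpow_one_add' hXp.le (by norm_num)]; norm_num
      rw [e1]
      calc (5 : ℝ) ^ (m + 1 + 1) = 25 * 5 ^ m := by ring
        _ ≤ 25 * K := by gcongr
        _ ≤ 25 * X := by gcongr
        _ = X * 25 := by ring
        _ ≤ X * X ^ (1 / 3 : ℝ) := by gcongr)
    (by
      rw [hrd]
      norm_num
      positivity)
  refine ⟨F, ?_, ?_⟩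
  · intro x hx
    obtain ⟨y1, y2, y3, y4, -⟩ := hF1 x hx
    refine ⟨y1, y2, y3, ?_⟩
    obtain ⟨n, n1, n2, n3⟩ := hGa x.1 x.2 y1.1
    have hdvd : 5 ^ (m + 1) * 1 * 1 ∣ n :=
      Pool.Agent.N232.SZ.dvd_of_Cn y1.1 (by positivity) (by omega) y4 n3
    have hle : 5 ^ (m + 1) * 1 * 1 ≤ n := Nat.le_of_dvd (by omega) hdvd
    have hle' : (5 : ℝ) ^ (m + 1) ≤ n := by
      have : 5 ^ (m + 1) ≤ n := by simpa using hle
      exact_mod_cast this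
    have hD : |((Dd x.1 x.2 : ℤ) : ℝ)| = n * (Nc x.1 x.2 : ℝ) := by
      rw [← Int.cast_abs, Int.abs_eq_natAbs, n3]; push_cast; ring
    rw [hD]
    have hN : (0 : ℝ) ≤ Nc x.1 x.2 := Nat.cast_nonneg _
    gcongr
    exact hm2.le.trans hle'
  · refine le_trans ?_ hF2
    rw [show (1 * 1 : ℕ) = 1 by norm_num, hrd]
    push_cast
    have hKp : 0 < K := by linarith
    have h5 : (5 : ℝ) ^ (m + 1) ≤ 5 * K := by
      calc (5 : ℝ) ^ (m + 1) = 5 * 5 ^ m := by ring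
        _ ≤ 5 * K := by gcongr
    calc c / 5 * X ^ 5 / K = c * X ^ 5 / (5 * K) := by field_simp
      _ ≤ c * X ^ 5 / (5 ^ (m + 1) * 1 * 1 * 1) := by
          rw [mul_one, mul_one, mul_one]
          gcongr

end Pool.Agent.U73.SZ
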